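import Pool.Agent.H731R3.Cardy.Defs

/-!
# Half-circuits (task B)
-/

namespace H731C

open H974 Finset

theorem HC_incr (S : Finset Edg) (z t r : ℤ) : IncrE S (HC z t r) := by
  rintro F G h _ ⟨h1, h2, h3⟩
  exact ⟨h1.mono h, h2.mono h, h3.mono h⟩

theorem LRE_subset_VE {a b c d t : ℤ} (hc : t < c) : LRE a b c d ⊆ VE a b t d := by
  rintro ⟨x, y, _ | _⟩ h
  · simp only [mem_VE_false, mem_LRE_false] at h ⊢; omega
  · simp only [mem_VE_true, mem_LRE_true] at h ⊢; omega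

theorem TBE_subset_VE {a b A B t d : ℤ} (h1 : A ≤ a) (h2 : b ≤ B) :
    TBE a b t d ⊆ VE A B t d := by
  rintro ⟨x, y, _ | _⟩ h
  · simp only [mem_VE_false, mem_TBE_false] at h ⊢; omega
  · simp only [mem_VE_true, mem_TBE_true] at h ⊢; omega

theorem pr_HC {z t r : ℤ} (hr : 1 ≤ r) {S : Finset Edg}
    (hS : VE (z - 3 * r) (z + 3 * r) t (t + 3 * r) ⊆ S) :
    (1/2 : ℝ) ^ 141 ≤ P2 S (HC z t r) := by
  have s1 : LRE (z - 3 * r) (z + 3 * r) (t + r) (t + 3 * r) ⊆ S :=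
    (LRE_subset_VE (by omega)).trans hS
  have s2 : TBE (z + r) (z + 3 * r) t (t + 3 * r) ⊆ S :=
    (TBE_subset_VE (by omega) le_rfl).trans hS
  have s3 : TBE (z - 3 * r) (z - r) t (t + 3 * r) ⊆ S :=
    (TBE_subset_VE le_rfl (by omega)).trans hS
  have e1 := pr_LRc (1/2) s1
  have e2 := pr_TBc (1/2) s2
  have e3 := pr_TBc (1/2) s3
  have k1 : (1/2 : ℝ)^47 ≤ Pr (fun _ => (1/2 : ℝ)) S
      (LRc (z - 3 * r) (z + 3 * r) (t + r) (t + 3 * r)) := by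
    rw [e1]; exact rsw (n := r) (by omega) (by omega) (by omega) (by omega)
  have k2 : (1/2 : ℝ)^47 ≤ Pr (fun _ => (1/2 : ℝ)) S
      (TBc (z + r) (z + 3 * r) t (t + 3 * r)) := by
    rw [e2]; exact rsw (n := r) (by omega) (by omega) (by omega) (by omega)
  have k3 : (1/2 : ℝ)^47 ≤ Pr (fun _ => (1/2 : ℝ)) S
      (TBc (z - 3 * r) (z - r) t (t + 3 * r)) := by
    rw [e3]; exact rsw (n := r) (by omega) (by omega) (by omega) (by omega)
  have i2 := Pr_harris okhalf2 (TBc_incr S (z + r) (z + 3 * r) t (t + 3 * r))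
    (TBc_incr S (z - 3 * r) (z - r) t (t + 3 * r))
  have c2 : IncrE S (fun F => TBc (z + r) (z + 3 * r) t (t + 3 * r) F ∧
      TBc (z - 3 * r) (z - r) t (t + 3 * r) F) :=
    fun F G hFG _ hF => ⟨hF.1.mono hFG, hF.2.mono hFG⟩
  have i3 := Pr_harris okhalf2 (LRc_incr S (z - 3 * r) (z + 3 * r) (t + r) (t + 3 * r)) c2
  have p47 : (0 : ℝ) ≤ (1/2 : ℝ)^47 := by positivity
  calc (1/2 : ℝ) ^ 141 = (1/2 : ℝ)^47 * ((1/2 : ℝ)^47 * (1/2 : ℝ)^47) := by ring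
    _ ≤ Pr (fun _ => (1/2 : ℝ)) S (LRc (z - 3 * r) (z + 3 * r) (t + r) (t + 3 * r)) *
        (Pr (fun _ => (1/2 : ℝ)) S (TBc (z + r) (z + 3 * r) t (t + 3 * r)) *
          Pr (fun _ => (1/2 : ℝ)) S (TBc (z - 3 * r) (z - r) t (t + 3 * r))) :=
        mul_le_mul k1 (mul_le_mul k2 k3 p47 (p47.trans k2)) (by positivity) (p47.trans k1)
    _ ≤ _ := mul_le_mul_of_nonneg_left i2 (p47.trans k1)
    _ ≤ _ := i3

/-- The three crossings, in an arbitrary set of open edges. -/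
theorem half_meet {G : Set Edg} {z t r s s' fr fr' fl fl' : ℤ} (hr : 1 ≤ r)
    (hfr : z + r ≤ fr ∧ fr ≤ z + 3 * r) (hfl : z - 3 * r ≤ fl ∧ fl ≤ z - r)
    (hT : Reach (G ∩ ↑(RE (z - 3 * r) (z + 3 * r) (t + r) (t + 3 * r))) (z - 3 * r, s)
      (z + 3 * r, s'))
    (hR : Reach (G ∩ ↑(RE (z + r) (z + 3 * r) t (t + 3 * r))) (fr, t) (fr', t + 3 * r))
    (hL : Reach (G ∩ ↑(RE (z - 3 * r) (z - r) t (t + 3 * r))) (fl, t) (fl', t + 3 * r))
    (u v : Vtx) (hu : inR (z - r) (z + r) t (t + r) u) (hv : onH z t (3 * r) v)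
    (h : Reach (G ∩ ↑(RE (z - 3 * r) (z + 3 * r) t (t + 3 * r))) u v) :
    Reach (G ∩ ↑(RE (z - 3 * r) (z + 3 * r) t (t + 3 * r))) u (fl, t) ∧
      Reach (G ∩ ↑(RE (z - 3 * r) (z + 3 * r) t (t + 3 * r))) u (fr, t) := by
  have mTR : Reach (G ∩ ↑(RE (z - 3 * r) (z + 3 * r) t (t + 3 * r))) (z - 3 * r, s) (fr, t) :=
    cross_meet (by omega) (by omega) le_rfl (by omega) (by omega) le_rfl hT
      (by simp only; omega) le_rfl hR (by simp only; omega) le_rfl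
  have mTL : Reach (G ∩ ↑(RE (z - 3 * r) (z + 3 * r) t (t + 3 * r))) (z - 3 * r, s) (fl, t) :=
    cross_meet le_rfl (by omega) (by omega) (by omega) (by omega) le_rfl hT le_rfl
      (by simp only; omega) hL (by simp only; omega) le_rfl
  unfold inR at hu
  unfold onH at hv
  rcases hv with hv | hv | hv
  · have m : Reach (G ∩ ↑(RE (z - 3 * r) (z + 3 * r) t (t + 3 * r))) v (fl, t) :=
      cross_meet le_rfl (by omega) (by omega) le_rfl (by omega) le_rfl h.symm hv.le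
        (show z - r ≤ u.1 by omega) hL le_rfl le_rfl
    have m2 := h.trans m
    exact ⟨m2, m2.trans (mTL.symm.trans mTR)⟩
  · have m : Reach (G ∩ ↑(RE (z - 3 * r) (z + 3 * r) t (t + 3 * r))) u (fr, t) :=
      cross_meet (by omega) (by omega) le_rfl le_rfl (by omega) le_rfl h
        (show u.1 ≤ z + r by omega) hv.ge hR le_rfl le_rfl
    exact ⟨m.trans (mTR.symm.trans mTL), m⟩
  · have m : Reach (G ∩ ↑(RE (z - 3 * r) (z + 3 * r) t (t + 3 * r))) (z - 3 * r, s) u :=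
      cross_meet le_rfl (by omega) le_rfl (by omega) (by omega) le_rfl hT le_rfl le_rfl h
        (by omega) hv.ge
    exact ⟨m.symm.trans mTL, m.symm.trans mTR⟩

theorem HC_meet {z t r : ℤ} (hr : 1 ≤ r) {F : Finset Edg} (h : HC z t r F) :
    ∃ fl fr : ℤ, (z - 3 * r ≤ fl ∧ fl ≤ z - r) ∧ (z + r ≤ fr ∧ fr ≤ z + 3 * r) ∧
      ∀ u v : Vtx, inR (z - r) (z + r) t (t + r) u → onH z t (3 * r) v →
        Reach (↑F ∩ ↑(RE (z - 3 * r) (z + 3 * r) t (t + 3 * r))) u v →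
        Reach (↑F ∩ ↑(RE (z - 3 * r) (z + 3 * r) t (t + 3 * r))) u (fl, t) ∧
        Reach (↑F ∩ ↑(RE (z - 3 * r) (z + 3 * r) t (t + 3 * r))) u (fr, t) := by
  obtain ⟨⟨s, s', hs, hs', hT⟩, ⟨fr, fr', hr1, hr2, hR⟩, ⟨fl, fl', hl1, hl2, hL⟩⟩ := h
  refine ⟨fl, fr, hl1, hr1, ?_⟩
  intro u v hu hv hP
  refine half_meet hr hr1 hl1 (hT.mono ?_) (hR.mono ?_) (hL.mono ?_) u v hu hv hP
  · exact Set.inter_subset_inter_right _ (by exact_mod_cast LRE_subset_RE)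
  · exact Set.inter_subset_inter_right _ (by exact_mod_cast TBE_subset_RE)
  · exact Set.inter_subset_inter_right _ (by exact_mod_cast TBE_subset_RE)

/-- the same inside the rectangle without the horizontal edges of the bottom row -/
theorem HC_meetV {z t r : ℤ} (hr : 1 ≤ r) {F : Finset Edg} (h : HC z t r F) :
    ∃ fl fr : ℤ, (z - 3 * r ≤ fl ∧ fl ≤ z - r) ∧ (z + r ≤ fr ∧ fr ≤ z + 3 * r) ∧
      ∀ u v : Vtx, inR (z - r) (z + r) t (t + r) u → onH z t (3 * r) v →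
        Reach (↑F ∩ ↑(VE (z - 3 * r) (z + 3 * r) t (t + 3 * r))) u v →
        Reach (↑F ∩ ↑(VE (z - 3 * r) (z + 3 * r) t (t + 3 * r))) u (fl, t) ∧
        Reach (↑F ∩ ↑(VE (z - 3 * r) (z + 3 * r) t (t + 3 * r))) u (fr, t) := by
  obtain ⟨⟨s, s', hs, hs', hT⟩, ⟨fr, fr', hr1, hr2, hR⟩, ⟨fl, fl', hl1, hl2, hL⟩⟩ := h
  refine ⟨fl, fr, hl1, hr1, ?_⟩
  intro u v hu hv hP
  have key := half_meet (G := (↑F : Set Edg) ∩ ↑(VE (z - 3 * r) (z + 3 * r) t (t + 3 * r)))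
    (t := t) hr hr1 hl1 (hT.mono ?_) (hR.mono ?_) (hL.mono ?_) u v hu hv (hP.mono ?_)
  · exact ⟨key.1.mono Set.inter_subset_left, key.2.mono Set.inter_subset_left⟩
  · rintro e ⟨h1, h2⟩
    exact ⟨⟨h1, Finset.mem_coe.mpr (LRE_subset_VE (by omega) (Finset.mem_coe.mp h2))⟩,
      Finset.mem_coe.mpr (LRE_subset_RE (Finset.mem_coe.mp h2))⟩
  · rintro e ⟨h1, h2⟩
    exact ⟨⟨h1, Finset.mem_coe.mpr (TBE_subset_VE (by omega) le_rfl (Finset.mem_coe.mp h2))⟩,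
      Finset.mem_coe.mpr (TBE_subset_RE (Finset.mem_coe.mp h2))⟩
  · rintro e ⟨h1, h2⟩
    exact ⟨⟨h1, Finset.mem_coe.mpr (TBE_subset_VE le_rfl (by omega) (Finset.mem_coe.mp h2))⟩,
      Finset.mem_coe.mpr (TBE_subset_RE (Finset.mem_coe.mp h2))⟩
  · rintro e ⟨h1, h2⟩
    exact ⟨⟨h1, h2⟩, Finset.mem_coe.mpr (VE_subset_RE (Finset.mem_coe.mp h2))⟩

end H731C
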