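import Pool.Agent.H731R3.Cardy.Defs
import Pool.Agent.H973R2.Exp3

/-!
One-arm bounds in the half-plane at an arbitrary boundary point (from `H973.exponents`).
-/

namespace H731C

open H974 H973 Finset

private theorem ES_shift {z t n : ℤ} :
    ES (shift (z, t) (HB 0 (-1) n)) = RE (z - n) (z + n) t (t + n) := by
  have hmem : ∀ y : Vtx, y ∈ shift (z, t) (HB 0 (-1) n) ↔ inR (z - n) (z + n) t (t + n) y := by
    intro y
    rw [mem_shift, mem_HB]
    unfold inR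
    simp only [zero_mul, zero_add, neg_mul, one_mul]
    have : ((-((y.2 - t : ℤ) : ℝ)) ≤ 0) ↔ t ≤ y.2 := by
      rw [neg_nonpos]
      have : ((0 : ℝ) ≤ ((y.2 - t : ℤ) : ℝ)) ↔ (0 : ℤ) ≤ y.2 - t := by exact_mod_cast Iff.rfl
      rw [this]
      omega
    rw [this]
    omega
  ext e
  rw [mem_ES, hmem, hmem]
  constructor
  · rintro ⟨h1, h2⟩
    exact RE_of_ends h1 h2
  · intro h
    exact RE_ends h

theorem pr_AR {z t : ℤ} {n : ℕ} (hn : 1 ≤ n) {S : Finset Edg}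
    (hS : RE (z - n) (z + n) t (t + n) ⊆ S) :
    P2 S (AR z t n) = armP (HB 0 (-1) n) n := by
  have h1 : P2 S (AR z t n) = P2 (RE (z - n) (z + n) t (t + n)) (AR z t n) := by
    apply Pr_local hS
    intro F _
    unfold AR
    constructor
    · rintro ⟨v, hv, hr⟩
      refine ⟨v, hv, hr.mono ?_⟩
      rintro e ⟨he1, he2⟩
      exact ⟨by rw [Finset.coe_inter]; exact ⟨he1, he2⟩, he2⟩
    · rintro ⟨v, hv, hr⟩
      refine ⟨v, hv, hr.mono ?_⟩
      rintro e ⟨he1, he2⟩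
      rw [Finset.coe_inter] at he1
      exact ⟨he1.1, he2⟩
  rw [h1, ← arm_shift (z, t) (HB 0 (-1) n) n, ES_shift]
  apply Pr_congr
  intro F hF
  have hFR : (↑F : Set Edg) ∩ ↑(RE (z - n) (z + n) t (t + n)) = ↑F := by
    apply Set.inter_eq_left.mpr
    exact_mod_cast hF
  have hmem : ∀ y : Vtx, y ∈ shift (z, t) (HB 0 (-1) n) ↔
      inR (z - n) (z + n) t (t + n) y := by
    intro y
    rw [mem_shift, mem_HB]
    unfold inR
    simp only [zero_mul, zero_add, neg_mul, one_mul]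
    have : ((-((y.2 - t : ℤ) : ℝ)) ≤ 0) ↔ t ≤ y.2 := by
      rw [neg_nonpos]
      have : ((0 : ℝ) ≤ ((y.2 - t : ℤ) : ℝ)) ↔ (0 : ℤ) ≤ y.2 - t := by exact_mod_cast Iff.rfl
      rw [this]
      omega
    rw [this]
    omega
  have hn' : (1 : ℤ) ≤ n := by exact_mod_cast hn
  constructor
  · rintro ⟨v, hv, hr⟩
    have hin : inR (z - n) (z + n) t (t + n) v := by
      apply reach_inR (u := (z, t)) ?_ hr
      unfold inR
      simp only
      omega
    rw [hFR] at hr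
    refine ⟨v, (hmem v).mpr hin, ?_, hr⟩
    unfold onH at hv
    unfold onBX
    simp only
    omega
  · rintro ⟨v, hv, hb, hr⟩
    have hin := (hmem v).mp hv
    refine ⟨v, ?_, ?_⟩
    · unfold onBX at hb
      unfold inR at hin
      unfold onH
      simp only at hb
      omega
    · rw [hFR]; exact hr

theorem AR_bounds : ∃ c C : ℝ, 0 < c ∧ 0 < C ∧ ∀ z t n : ℤ, 1 ≤ n → ∀ S : Finset Edg,
    RE (z - n) (z + n) t (t + n) ⊆ S →
    c * ((1 : ℝ) / n) ^ ((1 : ℝ) / 3) ≤ P2 S (AR z t n) ∧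
      P2 S (AR z t n) ≤ C * ((1 : ℝ) / n) ^ ((1 : ℝ) / 3) := by
  obtain ⟨c, C, hc, hC, h⟩ := exponents
  refine ⟨c, C, hc, hC, ?_⟩
  intro z t n hn S hS
  obtain ⟨k, rfl⟩ := Int.eq_ofNat_of_zero_le (show (0:ℤ) ≤ n by omega)
  have hk : 1 ≤ k := by exact_mod_cast hn
  rw [pr_AR hk hS]
  have h1 := (h k hk).2 0 (-1) (Or.inr (by norm_num))
  have hk0 : (0 : ℝ) < k := by exact_mod_cast hk
  have hs : 0 < (k : ℝ) ^ ((1 : ℝ) / 3) := Real.rpow_pos_of_pos hk0 _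
  have he : ((1 : ℝ) / ((k : ℤ) : ℝ)) ^ ((1 : ℝ) / 3) = ((k : ℝ) ^ ((1 : ℝ) / 3))⁻¹ := by
    rw [Int.cast_natCast, one_div, Real.inv_rpow hk0.le]
  rw [he]
  constructor
  · rw [mul_inv_le_iff₀ hs, mul_comm]
    exact h1.1
  · rw [le_mul_inv_iff₀ hs, mul_comm]
    exact h1.2

end H731C
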