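import Pool.Agent.H731R3.Cardy.Defs
import Pool.Agent.H731R3.Cardy.Arm
import Pool.Agent.H731R3.Cardy.Circ
import Pool.Agent.H731R3.Cardy.HalfBox

/-! # Task D: the arm of a boundary interval, lower bound -/

namespace H731C

open H974 Finset

theorem P2_edge {S : Finset Edg} {e : Edg} (he : e ∈ S) :
    P2 S (fun F => e ∈ F) = 1/2 := by
  have h1 : P2 S (fun F => e ∈ F) = P2 {e} (fun F => e ∈ F) := by
    unfold P2
    apply Pr_local (Finset.singleton_subset_iff.mpr he)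
    intro F _
    simp
  rw [h1]
  unfold P2 Pr
  have h2 : ({e} : Finset Edg) = insert e ∅ := by simp
  rw [h2, Ex_insert _ (Finset.notMem_empty e), Ex_empty, Ex_empty, ind_of (by simp),
    ind_not_of (by simp)]
  norm_num

theorem VE_mono {a b c d a' b' d' : ℤ} (h1 : a' ≤ a) (h2 : b ≤ b') (h3 : d ≤ d') :
    VE a b c d ⊆ VE a' b' c d' := by
  rintro ⟨x, y, _ | _⟩ he
  · rw [mem_VE_false] at he ⊢
    omega
  · rw [mem_VE_true] at he ⊢
    omega

theorem IA_of_HAV_HC {a b t n r : ℤ} (hr : 1 ≤ r) (hb : a + 6 * r ≤ b) (hn : 3 * r ≤ n)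
    {F : Finset Edg} (h1 : HAV (a + 3 * r) t r n F) (h2 : HC (a + 3 * r) t r F) :
    IA a b (a + 3 * r) t n F := by
  obtain ⟨u, v, hu, hv, huv⟩ := h1
  obtain ⟨fl, fr, -, hfr, hmeet⟩ := HC_meetV hr h2
  have hv' : v.1 ≤ (a + 3 * r) - 3 * r ∨ (a + 3 * r) + 3 * r ≤ v.1 ∨ v.2 ≤ t - 1 ∨
      t + 3 * r ≤ v.2 := by
    unfold onH at hv
    omega
  have hu' : inR ((a + 3 * r) - 3 * r) ((a + 3 * r) + 3 * r) (t - 1) (t + 3 * r) u := by
    unfold inR at hu ⊢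
    omega
  obtain ⟨w, hw1, hw2, hw3⟩ := first_exit hu' huv hv'
  have hw4 : inR (a + 3 * r - n) (a + 3 * r + n) t (t + n) w := by
    refine reach_inR (G := ↑F) (u := u) ?_ (hw3.mono ?_)
    · unfold inR at hu ⊢
      omega
    · rintro e ⟨⟨he1, he2⟩, -⟩
      exact ⟨he1, VE_subset_RE he2⟩
  have hw5 : onH (a + 3 * r) t (3 * r) w := by
    unfold onH
    unfold inR at hw4
    omega
  have hw6 : Reach (↑F ∩ ↑(VE (a + 3 * r - 3 * r) (a + 3 * r + 3 * r) t (t + 3 * r))) u w := by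
    refine hw3.mono ?_
    rintro ⟨x, y, _ | _⟩ ⟨⟨he1, he2⟩, he3⟩
    · refine ⟨he1, ?_⟩
      rw [Finset.mem_coe] at he2 he3 ⊢
      rw [mem_VE_false] at he2 ⊢
      rw [mem_RE_false] at he3
      omega
    · refine ⟨he1, ?_⟩
      rw [Finset.mem_coe] at he2 he3 ⊢
      rw [mem_VE_true] at he2 ⊢
      rw [mem_RE_true] at he3
      omega
  have h7 := (hmeet u w hu hw5 hw6).2
  refine ⟨fr, v, by omega, hv, (h7.symm.mono ?_).trans huv⟩
  apply Set.inter_subset_inter_right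
  exact_mod_cast VE_mono (by omega) (by omega) (by omega)

theorem IA_of_edge_AR {a b t n : ℤ} (hab : a ≤ b) (hn : 1 ≤ n)
    {F : Finset Edg} (h1 : ((a, t, false) : Edg) ∈ F) (h2 : AR a (t + 1) n F) :
    IA a b a t n F := by
  obtain ⟨v, hv, huv⟩ := h2
  have hv' : v.1 ≤ a - n ∨ a + n ≤ v.1 ∨ v.2 ≤ t ∨ t + n ≤ v.2 := by
    unfold onH at hv
    omega
  have hu' : inR (a - n) (a + n) t (t + n) (a, t + 1) := by
    unfold inR
    simp only
    omega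
  obtain ⟨w, hw1, hw2, hw3⟩ := first_exit hu' huv hv'
  have hw4 : inR (a - n) (a + n) (t + 1) (t + 1 + n) w := by
    refine reach_inR (G := ↑F) (u := (a, t + 1)) ?_ (hw3.mono ?_)
    · unfold inR
      simp only
      omega
    · rintro e ⟨he1, -⟩
      exact he1
  have hw5 : onH a t n w := by
    unfold onH
    unfold inR at hw4
    omega
  refine ⟨a, w, by omega, hw5, ?_⟩
  have h3 : Reach (↑F ∩ ↑(VE (a - n) (a + n) t (t + n))) (a, t) (a, t + 1) := by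
    apply Adj.reach
    refine ⟨(a, t, false), ⟨h1, ?_⟩, Or.inl ⟨rfl, rfl⟩⟩
    rw [Finset.mem_coe, mem_VE_false]
    omega
  refine h3.trans (hw3.mono ?_)
  rintro ⟨x, y, _ | _⟩ ⟨⟨he1, he2⟩, he3⟩
  · refine ⟨he1, ?_⟩
    rw [Finset.mem_coe] at he2 he3 ⊢
    rw [mem_RE_false] at he2 he3
    rw [mem_VE_false]
    omega
  · refine ⟨he1, ?_⟩
    rw [Finset.mem_coe] at he2 he3 ⊢
    rw [mem_RE_true] at he2 he3
    rw [mem_VE_true]
    omega

theorem IA_local {a b z t n : ℤ} {S S' : Finset Edg} (hS : S ⊆ S')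
    (hV : VE (z - n) (z + n) t (t + n) ⊆ S) :
    P2 S' (IA a b z t n) = P2 S (IA a b z t n) := by
  unfold P2
  apply Pr_local hS
  intro F _
  unfold IA
  have : (↑(F ∩ S) : Set Edg) ∩ ↑(VE (z - n) (z + n) t (t + n)) =
      ↑F ∩ ↑(VE (z - n) (z + n) t (t + n)) := by
    ext e
    simp only [Set.mem_inter_iff, Finset.mem_coe, Finset.mem_inter]
    constructor
    · rintro ⟨⟨h1, h2⟩, h3⟩
      exact ⟨h1, h3⟩
    · rintro ⟨h1, h3⟩
      exact ⟨⟨h1, hV h3⟩, h3⟩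
  rw [this]

theorem cube_root_le {x y k K : ℝ} (hx : 0 ≤ x) (hy : 0 ≤ y) (hk : 0 ≤ K)
    (h : x ≤ k * y) (hK : k ≤ K ^ 3) :
    x ^ ((1 : ℝ) / 3) ≤ K * y ^ ((1 : ℝ) / 3) := by
  have h1 : x ≤ K ^ 3 * y := h.trans (mul_le_mul_of_nonneg_right hK hy)
  calc x ^ ((1 : ℝ) / 3) ≤ (K ^ 3 * y) ^ ((1 : ℝ) / 3) :=
        Real.rpow_le_rpow hx h1 (by norm_num)
    _ = (K ^ 3) ^ ((1 : ℝ) / 3) * y ^ ((1 : ℝ) / 3) := Real.mul_rpow (by positivity) hy
    _ = K * y ^ ((1 : ℝ) / 3) := by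
        congr 1
        rw [← Real.rpow_natCast K 3, ← Real.rpow_mul hk]
        norm_num

theorem IA_lower : ∃ c : ℝ, 0 < c ∧ ∀ a b t n : ℤ, a ≤ b → b - a + 1 ≤ n →
    ∃ z : ℤ, (a ≤ z ∧ z ≤ b) ∧ ∀ S : Finset Edg, VE (z - n) (z + n) t (t + n) ⊆ S →
      c * (((b - a + 1 : ℤ) : ℝ) / n) ^ ((1 : ℝ) / 3) ≤ P2 S (IA a b z t n) := by
  obtain ⟨c0, hc0, hH⟩ := HAV_lower
  obtain ⟨c1, C1, hc1, -, hA⟩ := AR_bounds
  refine ⟨min (c0 * (1/2 : ℝ) ^ 141 / 3) (c1 / 4), lt_min (by positivity) (by positivity), ?_⟩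
  intro a b t n hab hn
  have hn1 : 1 ≤ n := by omega
  have hnR : (1 : ℝ) ≤ n := by exact_mod_cast hn1
  have hn0 : (0 : ℝ) < n := by linarith
  set α : ℤ := b - a + 1 with hα
  have hα1 : (1 : ℝ) ≤ (α : ℝ) := by
    have : (1 : ℤ) ≤ α := by omega
    exact_mod_cast this
  rcases le_or_gt 1 ((b - a) / 6) with hr | hr
  · set r := (b - a) / 6 with hrdef
    have hr6 : 6 * r ≤ b - a := by omega
    have hr7 : b - a ≤ 6 * r + 5 := by omega
    refine ⟨a + 3 * r, by omega, ?_⟩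
    intro S hS
    have hrR : (1 : ℝ) ≤ r := by exact_mod_cast hr
    have h1 := hH (a + 3 * r) t r n hr (by omega) S hS
    have h2 := pr_HC (z := a + 3 * r) (t := t) hr (S := S)
      ((VE_mono (by omega) (by omega) (by omega)).trans hS)
    have h3 : P2 S (HAV (a + 3 * r) t r n) * P2 S (HC (a + 3 * r) t r) ≤
        P2 S (fun F => HAV (a + 3 * r) t r n F ∧ HC (a + 3 * r) t r F) :=
      Pr_harris okhalf2 (HAV_incr S _ _ _ _) (HC_incr S _ _ _)
    have h4 : P2 S (fun F => HAV (a + 3 * r) t r n F ∧ HC (a + 3 * r) t r F) ≤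
        P2 S (IA a b (a + 3 * r) t n) := by
      apply Pr_mono okhalf2
      rintro F _ ⟨hF1, hF2⟩
      exact IA_of_HAV_HC hr (by omega) (by omega) hF1 hF2
    have h5 : ((α : ℝ) / n) ^ ((1 : ℝ) / 3) ≤ 3 * ((r : ℝ) / n) ^ ((1 : ℝ) / 3) := by
      apply cube_root_le (k := 12) (by positivity) (by positivity) (by norm_num) _ (by norm_num)
      rw [← mul_div_assoc]
      apply div_le_div_of_nonneg_right _ hn0.le
      have : α ≤ 12 * r := by omega
      exact_mod_cast this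
    have h6 : 0 ≤ ((r : ℝ) / n) ^ ((1 : ℝ) / 3) := by positivity
    have h7 : 0 ≤ ((α : ℝ) / n) ^ ((1 : ℝ) / 3) := by positivity
    calc min (c0 * (1/2 : ℝ) ^ 141 / 3) (c1 / 4) * ((α : ℝ) / n) ^ ((1 : ℝ) / 3)
        ≤ (c0 * (1/2 : ℝ) ^ 141 / 3) * ((α : ℝ) / n) ^ ((1 : ℝ) / 3) :=
          mul_le_mul_of_nonneg_right (min_le_left _ _) h7
      _ ≤ (c0 * (1/2 : ℝ) ^ 141 / 3) * (3 * ((r : ℝ) / n) ^ ((1 : ℝ) / 3)) :=
          mul_le_mul_of_nonneg_left h5 (by positivity)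
      _ = (c0 * ((r : ℝ) / n) ^ ((1 : ℝ) / 3)) * (1/2 : ℝ) ^ 141 := by ring
      _ ≤ P2 S (HAV (a + 3 * r) t r n) * P2 S (HC (a + 3 * r) t r) :=
          mul_le_mul h1 h2 (by positivity) (Pr_nonneg okhalf2 _ _)
      _ ≤ _ := h3.trans h4
  · refine ⟨a, by omega, ?_⟩
    intro S hS
    set S' : Finset Edg := S ∪ RE (a - n) (a + n) (t + 1) (t + 1 + n) with hS'
    rw [← IA_local (S' := S') Finset.subset_union_left hS]
    have h1 := (hA a (t + 1) n hn1 S' Finset.subset_union_right).1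
    have h2 : P2 S' (fun F => ((a, t, false) : Edg) ∈ F) = 1/2 := by
      apply P2_edge
      apply Finset.mem_union_left
      apply hS
      rw [mem_VE_false]
      omega
    have h3 : P2 S' (fun F => ((a, t, false) : Edg) ∈ F) * P2 S' (AR a (t + 1) n) ≤
        P2 S' (fun F => ((a, t, false) : Edg) ∈ F ∧ AR a (t + 1) n F) := by
      apply Pr_harris okhalf2 _ (AR_incr S' _ _ _)
      intro F G hFG _ hF
      exact hFG hF
    have h4 : P2 S' (fun F => ((a, t, false) : Edg) ∈ F ∧ AR a (t + 1) n F) ≤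
        P2 S' (IA a b a t n) := by
      apply Pr_mono okhalf2
      rintro F _ ⟨hF1, hF2⟩
      exact IA_of_edge_AR hab hn1 hF1 hF2
    have h5 : ((α : ℝ) / n) ^ ((1 : ℝ) / 3) ≤ 2 * ((1 : ℝ) / n) ^ ((1 : ℝ) / 3) := by
      apply cube_root_le (k := 6) (by positivity) (by positivity) (by norm_num) _ (by norm_num)
      rw [← mul_div_assoc]
      apply div_le_div_of_nonneg_right _ hn0.le
      have : α ≤ 6 := by omega
      have h : (α : ℝ) ≤ 6 := by exact_mod_cast this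
      linarith
    have h6 : 0 ≤ ((1 : ℝ) / n) ^ ((1 : ℝ) / 3) := by positivity
    have h7 : 0 ≤ ((α : ℝ) / n) ^ ((1 : ℝ) / 3) := by positivity
    rw [h2] at h3
    calc min (c0 * (1/2 : ℝ) ^ 141 / 3) (c1 / 4) * ((α : ℝ) / n) ^ ((1 : ℝ) / 3)
        ≤ (c1 / 4) * ((α : ℝ) / n) ^ ((1 : ℝ) / 3) :=
          mul_le_mul_of_nonneg_right (min_le_right _ _) h7
      _ ≤ (c1 / 4) * (2 * ((1 : ℝ) / n) ^ ((1 : ℝ) / 3)) :=
          mul_le_mul_of_nonneg_left h5 (by positivity)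
      _ = 1/2 * (c1 * ((1 : ℝ) / n) ^ ((1 : ℝ) / 3)) := by ring
      _ ≤ 1/2 * P2 S' (AR a (t + 1) n) := mul_le_mul_of_nonneg_left h1 (by norm_num)
      _ ≤ _ := h3.trans h4

end H731C
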