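import Mathlib

/-!
# Cardy's function (task K, helper415)
-/

set_option autoImplicit false

namespace H731C

open MeasureTheory intervalIntegral

/-- Cardy's function in its incomplete Beta form. -/
noncomputable def cardyF (x : ℝ) : ℝ :=
  (∫ u in (0 : ℝ)..x, u ^ (-(2/3) : ℝ) * (1 - u) ^ (-(2/3) : ℝ)) /
    ∫ u in (0 : ℝ)..1, u ^ (-(2/3) : ℝ) * (1 - u) ^ (-(2/3) : ℝ)

namespace CardyAux

/-- the integrand -/
noncomputable def g (u : ℝ) : ℝ := u ^ (-(2/3) : ℝ) * (1 - u) ^ (-(2/3) : ℝ)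

theorem g_symm (u : ℝ) : g (1 - u) = g u := by
  unfold g
  rw [sub_sub_cancel, mul_comm]

theorem g_int {x : ℝ} (hx0 : 0 ≤ x) (hx : x < 1) : IntervalIntegrable g volume 0 x := by
  have h1 : IntervalIntegrable (fun u : ℝ => u ^ (-(2/3) : ℝ)) volume 0 x :=
    intervalIntegral.intervalIntegrable_rpow' (by norm_num)
  have h2 : ContinuousOn (fun u : ℝ => (1 - u) ^ (-(2/3) : ℝ)) (Set.uIcc 0 x) := by
    intro u hu
    rw [Set.uIcc_of_le hx0] at hu
    refine ContinuousAt.continuousWithinAt ?_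
    refine ContinuousAt.rpow_const (by fun_prop) (Or.inl ?_)
    have := hu.2
    intro h
    linarith
  exact h1.mul_continuousOn h2

theorem g_int' {x : ℝ} (hx0 : 0 < x) (hx : x ≤ 1) : IntervalIntegrable g volume x 1 := by
  have h1 := (g_int (x := 1 - x) (by linarith) (by linarith)).comp_sub_left 1
  simp only [sub_zero, sub_sub_cancel] at h1
  have h2 : (fun u => g (1 - u)) = g := funext g_symm
  rw [h2] at h1
  exact h1.symm

theorem g_symm_int (x : ℝ) : ∫ u in x..1, g u = ∫ u in (0 : ℝ)..(1 - x), g u := by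
  have h1 := intervalIntegral.integral_comp_sub_left (a := 0) (b := 1 - x) g 1
  simp only [sub_zero, sub_sub_cancel] at h1
  rw [← h1]
  congr 1
  exact funext g_symm

theorem total_split {x : ℝ} (hx0 : 0 < x) (hx : x < 1) :
    ∫ u in (0 : ℝ)..1, g u = (∫ u in (0 : ℝ)..x, g u) + ∫ u in (0 : ℝ)..(1 - x), g u := by
  rw [← g_symm_int, intervalIntegral.integral_add_adjacent_intervals (g_int hx0.le hx)
    (g_int' hx0 hx.le)]

theorem pow_integral {x : ℝ} (hx0 : 0 ≤ x) :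
    ∫ u in (0 : ℝ)..x, u ^ (-(2/3) : ℝ) = 3 * x ^ ((1 : ℝ) / 3) := by
  rw [integral_rpow (Or.inl (by norm_num))]
  have h : (-(2/3) + 1 : ℝ) = 1 / 3 := by norm_num
  rw [h, Real.zero_rpow (by norm_num)]
  ring

theorem lower {x : ℝ} (hx0 : 0 ≤ x) (hx : x < 1) :
    3 * x ^ ((1 : ℝ) / 3) ≤ ∫ u in (0 : ℝ)..x, g u := by
  rw [← pow_integral hx0]
  refine intervalIntegral.integral_mono_on hx0
    (intervalIntegral.intervalIntegrable_rpow' (by norm_num)) (g_int hx0 hx) ?_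
  intro u hu
  unfold g
  have h1 : (0 : ℝ) ≤ u ^ (-(2/3) : ℝ) := Real.rpow_nonneg hu.1 _
  have h2 : (1 : ℝ) ≤ (1 - u) ^ (-(2/3) : ℝ) :=
    Real.one_le_rpow_of_pos_of_le_one_of_nonpos (by linarith [hu.2]) (by linarith [hu.1])
      (by norm_num)
  exact le_mul_of_one_le_right h1 h2

theorem upper {x : ℝ} (hx0 : 0 ≤ x) (hx : x ≤ 1 / 2) :
    ∫ u in (0 : ℝ)..x, g u ≤ 6 * x ^ ((1 : ℝ) / 3) := by
  have h6 : 6 * x ^ ((1 : ℝ) / 3) = ∫ u in (0 : ℝ)..x, 2 * u ^ (-(2/3) : ℝ) := by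
    rw [intervalIntegral.integral_const_mul, pow_integral hx0]
    ring
  rw [h6]
  refine intervalIntegral.integral_mono_on hx0 (g_int hx0 (by linarith))
    ((intervalIntegral.intervalIntegrable_rpow' (by norm_num)).const_mul 2) ?_
  intro u hu
  unfold g
  have h1 : (0 : ℝ) ≤ u ^ (-(2/3) : ℝ) := Real.rpow_nonneg hu.1 _
  have h2 : (1 - u) ^ (-(2/3) : ℝ) ≤ 2 := by
    have h3 : (1 - u) ^ (-(2/3) : ℝ) ≤ (1 / 2 : ℝ) ^ (-(2/3) : ℝ) :=
      Real.rpow_le_rpow_of_nonpos (by norm_num) (by linarith [hu.2]) (by norm_num)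
    have h4 : (1 / 2 : ℝ) ^ (-(2/3) : ℝ) ≤ (1 / 2 : ℝ) ^ (-1 : ℝ) :=
      Real.rpow_le_rpow_of_exponent_ge (by norm_num) (by norm_num) (by norm_num)
    have h5 : (1 / 2 : ℝ) ^ (-1 : ℝ) = 2 := by
      rw [Real.rpow_neg_one]; norm_num
    linarith
  rw [mul_comm]
  exact mul_le_mul_of_nonneg_right h2 h1

theorem cardy_eq (x : ℝ) : cardyF x = (∫ u in (0 : ℝ)..x, g u) / ∫ u in (0 : ℝ)..1, g u := rfl

theorem total_pos : 0 < ∫ u in (0 : ℝ)..1, g u := by
  have h1 := total_split (x := 1 / 2) (by norm_num) (by norm_num)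
  have h2 := lower (x := 1 / 2) (by norm_num) (by norm_num)
  have h3 := lower (x := 1 - 1 / 2) (by norm_num) (by norm_num)
  have h4 : (0 : ℝ) < (1 / 2 : ℝ) ^ ((1 : ℝ) / 3) := by positivity
  have h5 : (0 : ℝ) < (1 - 1 / 2 : ℝ) ^ ((1 : ℝ) / 3) := Real.rpow_pos_of_pos (by norm_num) _
  linarith

theorem one_sub {x : ℝ} (hx0 : 0 < x) (hx : x < 1) : 1 - cardyF x = cardyF (1 - x) := by
  have h := total_split hx0 hx
  have hT := total_pos
  rw [cardy_eq, cardy_eq, eq_div_iff hT.ne', sub_mul, div_mul_cancel₀ _ hT.ne']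
  linarith

theorem bounds {x : ℝ} (hx0 : 0 < x) (hx : x < 1) :
    3 / (∫ u in (0 : ℝ)..1, g u) * x ^ ((1 : ℝ) / 3) ≤ cardyF x ∧
      cardyF x ≤ (6 / (∫ u in (0 : ℝ)..1, g u) + 2) * x ^ ((1 : ℝ) / 3) := by
  have hT := total_pos
  have hlow := lower hx0.le hx
  have hx3 : 0 < x ^ ((1 : ℝ) / 3) := by positivity
  constructor
  · rw [cardy_eq, div_mul_eq_mul_div]
    exact div_le_div_of_nonneg_right hlow hT.le
  · rcases le_or_gt x (1 / 2) with h | h
    · have h1 := upper hx0.le h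
      rw [cardy_eq]
      calc (∫ u in (0 : ℝ)..x, g u) / (∫ u in (0 : ℝ)..1, g u)
          ≤ 6 * x ^ ((1 : ℝ) / 3) / (∫ u in (0 : ℝ)..1, g u) :=
            div_le_div_of_nonneg_right h1 hT.le
        _ = 6 / (∫ u in (0 : ℝ)..1, g u) * x ^ ((1 : ℝ) / 3) := by ring
        _ ≤ _ := by
          apply mul_le_mul_of_nonneg_right _ hx3.le
          linarith
    · have h1 : cardyF x ≤ 1 := by
        have h2 := one_sub hx0 hx
        have h3 := lower (x := 1 - x) (by linarith) (by linarith)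
        have h4 : 0 ≤ cardyF (1 - x) := by
          rw [cardy_eq]
          refine div_nonneg (le_trans ?_ h3) hT.le
          have : 0 ≤ (1 - x) ^ ((1 : ℝ) / 3) := Real.rpow_nonneg (by linarith) _
          linarith
        linarith
      have h5 : (1 / 2 : ℝ) ≤ x ^ ((1 : ℝ) / 3) := by
        have h6 : x ^ (1 : ℝ) ≤ x ^ ((1 : ℝ) / 3) :=
          Real.rpow_le_rpow_of_exponent_ge hx0 hx.le (by norm_num)
        rw [Real.rpow_one] at h6
        linarith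
      have h7 : 0 ≤ 6 / (∫ u in (0 : ℝ)..1, g u) := by positivity
      nlinarith

end CardyAux

open CardyAux in
theorem cardyF_bounds : ∃ c C : ℝ, 0 < c ∧ 0 < C ∧ ∀ x : ℝ, 0 < x → x < 1 →
    c * x ^ ((1 : ℝ) / 3) ≤ cardyF x ∧ cardyF x ≤ C * x ^ ((1 : ℝ) / 3) ∧
    c * (1 - x) ^ ((1 : ℝ) / 3) ≤ 1 - cardyF x ∧ 1 - cardyF x ≤ C * (1 - x) ^ ((1 : ℝ) / 3) := by
  have hT := total_pos
  refine ⟨3 / (∫ u in (0 : ℝ)..1, g u), 6 / (∫ u in (0 : ℝ)..1, g u) + 2, by positivity,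
    by positivity, ?_⟩
  intro x hx0 hx
  have h1 := bounds hx0 hx
  have h2 := bounds (x := 1 - x) (by linarith) (by linarith)
  rw [one_sub hx0 hx]
  exact ⟨h1.1, h1.2, h2.1, h2.2⟩

end H731C
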