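import Pool.Agent.H731R3.Cardy.Defs

/-!
If there is no open path between two boundary intervals, then there is a closed dual arm which
starts between them.
-/

namespace H731C

open H974 Finset

theorem dual_arm {a b c d A B D n : ℤ} {F : Finset Edg} (hab : a ≤ b) (hbc : b < c)
    (hcd : c ≤ d) (hn : c - b ≤ n) (h1 : a ≤ b - n - 2) (h2 : b + n + 2 ≤ d)
    (hA : A ≤ a) (hB : d ≤ B) (hD : n + 2 ≤ D) (hno : ¬ CN a b c d A B 0 D F) :
    HA b (-1) (c - b) n (dmp (RE A B 0 D \ F)) := by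
  set R : Vtx → Prop := fun w => ∃ x, (a ≤ x ∧ x ≤ b) ∧ Reach (↑F ∩ ↑(RE A B 0 D)) (x, 0) w
    with hR
  set W : Vtx → Prop := fun w => (R w ∨ w.1 ≤ b - n - 2) ∧ w.1 < b + n + 2 with hW
  have hRcl : ∀ e ∈ F, e ∈ RE A B 0 D → (R (src e) ↔ R (tgt e)) := by
    intro e heF heR
    have hm : e ∈ (↑F ∩ ↑(RE A B 0 D) : Set Edg) := ⟨Finset.mem_coe.mpr heF, Finset.mem_coe.mpr heR⟩
    constructor
    · rintro ⟨x, h3, h4⟩
      exact ⟨x, h3, h4.trans (Adj.reach ⟨e, hm, Or.inl ⟨rfl, rfl⟩⟩)⟩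
    · rintro ⟨x, h3, h4⟩
      exact ⟨x, h3, h4.trans (Adj.reach ⟨e, hm, Or.inr ⟨rfl, rfl⟩⟩)⟩
  have hWL : ∀ i : ℤ, b - n - 2 ≤ i → i ≤ b → W (i, 0) := by
    intro i h3 h4
    refine ⟨Or.inl ⟨i, ⟨by omega, h4⟩, Reach.refl _ _⟩, by simp only; omega⟩
  have hWR : ∀ i : ℤ, c ≤ i → i ≤ b + n + 2 → ¬ W (i, 0) := by
    rintro i h3 h4 ⟨⟨x, h5, h6⟩ | h5, -⟩
    · exact hno ⟨x, i, h5, ⟨h3, by omega⟩, h6⟩
    · simp only at h5; omega
  obtain ⟨x, x', hx, hx', hr⟩ := dual_crossing (a := b - n - 2) (b := b + n + 2) (c := 0)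
    (d := n + 2) (by omega) (by omega) W
    (by intro y _ _; exact ⟨Or.inr (by simp), by simp only; omega⟩)
    (by rintro y _ _ ⟨-, h⟩; simp only [lt_self_iff_false] at h)
  set G : Set Edg := bdry W ∩ ↑(LRE (b - n - 2) (b + n + 2) 0 (n + 2)) with hG
  -- the first dual edge
  have hfirst : ((x, 0, true) : Edg) ∈ G := by
    rcases Relation.ReflTransGen.cases_head hr with h | ⟨g, h, -⟩
    · simp only [Prod.mk.injEq] at h; omega
    · obtain ⟨⟨p, q, _ | _⟩, he, hc⟩ := h
      · have hm : b - n - 2 < p ∧ p < b + n + 2 ∧ 0 ≤ q ∧ q < n + 2 := by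
          simpa only [mem_coe, mem_LRE_false] using he.2
        simp only [dsrc_false, dtgt_mk, Prod.mk.injEq] at hc
        omega
      · have hm : b - n - 2 ≤ p ∧ p < b + n + 2 ∧ 0 ≤ q ∧ q ≤ n + 2 := by
          simpa only [mem_coe, mem_LRE_true] using he.2
        simp only [dsrc_true, dtgt_mk, Prod.mk.injEq] at hc
        rcases hc with ⟨⟨h3, h4⟩, -⟩ | ⟨-, -, h4⟩
        · have h5 : q = 0 := by omega
          rw [h3, h5] at he
          exact he
        · omega
  have hbd : ¬ (W (x, 0) ↔ W (x + 1, 0)) := by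
    have := hfirst.1
    simpa [bdry] using this
  have hx1 : b ≤ x := by
    by_contra h
    exact hbd ⟨fun _ => hWL _ (by omega) (by omega), fun _ => hWL _ (by omega) (by omega)⟩
  have hx2 : x < c := by
    by_contra h
    exact hbd ⟨fun h' => absurd h' (hWR _ (by omega) (by omega)),
      fun h' => absurd h' (hWR _ (by omega) (by omega))⟩
  -- the dual path leaves the half-box
  have hr' : Reach (dl '' G) (x, 0 - 1) (x', n + 2) := reach_dl.mpr hr
  obtain ⟨w, hw1, hw2, hw3⟩ := first_exit (a := b - n) (b := b + n) (c := -2) (d := -1 + n)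
    (u := (x, 0 - 1)) ⟨⟨by simp only; omega, by simp only; omega⟩, by simp only; omega,
      by simp only; omega⟩ hr' (by simp only; omega)
  have hlow : -1 ≤ w.2 := by
    have key : ∀ w, Reach (dl '' G ∩ ↑(RE (b - n) (b + n) (-2) (-1 + n))) (x, 0 - 1) w →
        -1 ≤ w.2 := by
      intro w hw
      induction hw with
      | refl => simp
      | tail _ hs _ =>
        obtain ⟨e, ⟨⟨⟨p, q, _ | _⟩, he, rfl⟩, -⟩, hc⟩ := hs
        · have hm : b - n - 2 < p ∧ p < b + n + 2 ∧ 0 ≤ q ∧ q < n + 2 := by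
            simpa only [mem_coe, mem_LRE_false] using he.2
          simp only [dl_f, src_mk, tgt_true] at hc
          rcases hc with ⟨-, h4⟩ | ⟨h4, -⟩
          · rw [← h4]; simp only; omega
          · rw [← h4]; simp only; omega
        · have hm : b - n - 2 ≤ p ∧ p < b + n + 2 ∧ 0 ≤ q ∧ q ≤ n + 2 := by
            simpa only [mem_coe, mem_LRE_true] using he.2
          simp only [dl_t, src_mk, tgt_false] at hc
          rcases hc with ⟨-, h4⟩ | ⟨h4, -⟩
          · rw [← h4]; simp only; omega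
          · rw [← h4]; simp only; omega
    exact key w hw3
  refine ⟨(x, -1), w, ?_, ?_, ?_⟩
  · refine ⟨⟨?_, ?_⟩, ?_, ?_⟩ <;> simp only <;> omega
  · unfold onH
    omega
  · have hw3' : Reach (dl '' G ∩ ↑(RE (b - n) (b + n) (-2) (-1 + n))) (x, -1) w := by
      simpa using hw3
    refine hw3'.mono ?_
    rintro _ ⟨⟨e, he, rfl⟩, he2⟩
    obtain ⟨p, q, _ | _⟩ := e
    · have hm : b - n - 2 < p ∧ p < b + n + 2 ∧ 0 ≤ q ∧ q < n + 2 := by
        simpa only [mem_coe, mem_LRE_false] using he.2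
      have hm2 : b - n ≤ p - 1 ∧ p - 1 < b + n ∧ -2 ≤ q ∧ q ≤ -1 + n := by
        simpa only [mem_coe, dl_f, mem_RE_true] using he2
      have hin : ((p, q, false) : Edg) ∈ RE A B 0 D := by rw [mem_RE_false]; omega
      refine ⟨?_, ?_⟩
      · rw [coe_dmp]
        refine Set.mem_image_of_mem _ ?_
        rw [Finset.mem_coe, Finset.mem_sdiff]
        refine ⟨hin, fun hF => ?_⟩
        have h3 := hRcl _ hF hin
        simp only [src_mk, tgt_false] at h3
        apply he.1
        simp only [src_mk, tgt_false, hW]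
        have e1 : ¬ (p ≤ b - n - 2) := by omega
        have e2 : p < b + n + 2 := by omega
        simp only [e1, e2, or_false, and_true]
        exact h3
      · simp only [mem_coe, dl_f, mem_RE_true]; omega
    · have hm : b - n - 2 ≤ p ∧ p < b + n + 2 ∧ 0 ≤ q ∧ q ≤ n + 2 := by
        simpa only [mem_coe, mem_LRE_true] using he.2
      have hm2 : b - n ≤ p ∧ p ≤ b + n ∧ -2 ≤ q - 1 ∧ q - 1 < -1 + n := by
        simpa only [mem_coe, dl_t, mem_RE_false] using he2
      have hin : ((p, q, true) : Edg) ∈ RE A B 0 D := by rw [mem_RE_true]; omega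
      refine ⟨?_, ?_⟩
      · rw [coe_dmp]
        refine Set.mem_image_of_mem _ ?_
        rw [Finset.mem_coe, Finset.mem_sdiff]
        refine ⟨hin, fun hF => ?_⟩
        have h3 := hRcl _ hF hin
        simp only [src_mk, tgt_true] at h3
        apply he.1
        simp only [src_mk, tgt_true, hW]
        have e1 : ¬ (p ≤ b - n - 2) := by omega
        have e2 : p < b + n + 2 := by omega
        have e3 : ¬ (p + 1 ≤ b - n - 2) := by omega
        have e4 : p + 1 < b + n + 2 := by omega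
        simp only [e1, e2, e3, e4, or_false, and_true]
        exact h3
      · simp only [mem_coe, dl_t, mem_RE_false]; omega

end H731C
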