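import Pool.Agent.H731R3.Cardy.Defs

/-!
Task G: a closed dual path between two bottom faces blocks open paths.
-/

namespace H731C

open H974 Finset

theorem no_half {A B D p q u v : ℤ} {F : Set Edg} (hu : p < u ∧ u ≤ q) (hv : v ≤ p ∨ q < v)
    (h1 : DReach (Fᶜ ∩ ↑(RE A B 0 D)) (p, -1) (q, -1))
    (h2 : Reach (F ∩ ↑(RE A B 0 D)) (u, 0) (v, 0)) : False := by
  obtain ⟨Z, hZ1, hZ2⟩ := chain_of_dreach h1
  have hpq : p < q := by omega
  have hZout : ∀ e, e ∉ RE A B 0 D → Z e = 0 := by
    intro e he
    by_contra h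
    exact he (hZ1 e h).2
  have hZF : ∀ e, e ∈ F → Z e = 0 := by
    intro e he
    by_contra h
    exact (hZ1 e h).1 he
  have hcyc : ∀ x y, 0 ≤ y → bd Z x y = 0 := by
    intro x1 y1 h3
    rw [hZ2, b2_not_of, b2_not_of, add_zero]
    · simp only [Prod.mk.injEq]; omega
    · simp only [Prod.mk.injEq]; omega
  set s : ℤ → ℤ → ZMod 2 := fun x y => ∑ i ∈ Finset.Ico A x, Z (i, y, true) with hs
  have sH : ∀ x y, A ≤ x → s (x + 1) y = s x y + Z (x, y, true) := by
    intro x y hx
    simp only [hs]
    rw [sum_Ico_int_succ hx]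
  have sV : ∀ (n : ℕ) (y : ℤ), 0 ≤ y →
      s (A + n) (y + 1) + s (A + n) y = Z (A + n, y, false) := by
    intro n y hc
    induction n with
    | zero =>
      have : Z (A + ((0:ℕ):ℤ), y, false) = 0 := by
        have h3 := hcyc (A - 1) y hc
        unfold bd at h3
        rw [hZout (A - 1, y, true) (by simp), hZout (A - 1, y + 1, true) (by simp),
          hZout (A - 1, y, false) (by simp)] at h3
        have e1 : A - 1 + 1 = A + ((0:ℕ):ℤ) := by push_cast; ring
        rw [e1] at h3
        simpa using h3
      rw [this]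
      simp [hs]
    | succ n ih =>
      have e1 : A + ((n + 1 : ℕ) : ℤ) = (A + n) + 1 := by push_cast; ring
      rw [e1, sH _ _ (by omega), sH _ _ (by omega)]
      have h3 := hcyc (A + n) y hc
      unfold bd at h3
      have h4 := zmod2_add_self (Z (A + n, y, false))
      have h5 := zmod2_add_self (Z (A + n + 1, y, false))
      linear_combination ih + h3 - h5
  have sV' : ∀ x y, A ≤ x → 0 ≤ y → s x (y + 1) = s x y + Z (x, y, false) := by
    intro x y hx hc
    obtain ⟨n, hn⟩ := Int.eq_ofNat_of_zero_le (sub_nonneg.mpr hx)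
    have e1 : x = A + n := by omega
    have h3 := sV n y hc
    rw [← e1] at h3
    have h4 := zmod2_add_self (s x y)
    linear_combination h3 - h4
  -- `s` is constant along open paths
  have hpath : ∀ w : Vtx, Reach (F ∩ RE A B 0 D) (u, 0) w → s w.1 w.2 = s u 0 := by
    intro w hw
    induction hw with
    | refl => rfl
    | @tail w' w'' _ hstep ih =>
      obtain ⟨⟨x0, y0, bo⟩, ⟨heF, heR⟩, hcase⟩ := hstep
      have hZe := hZF _ heF
      cases bo
      · have hm : A ≤ x0 ∧ x0 ≤ B ∧ 0 ≤ y0 ∧ y0 < D := by simpa using heR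
        have h3 := sV' x0 y0 hm.1 hm.2.2.1
        rw [hZe, add_zero] at h3
        simp only [src_mk, tgt_false] at hcase
        rcases hcase with ⟨h4, h5⟩ | ⟨h4, h5⟩
        · rw [← h4] at ih; rw [← h5]; simpa [h3] using ih
        · rw [← h5] at ih; rw [← h4]; simpa [h3] using ih
      · have hm : A ≤ x0 ∧ x0 < B ∧ 0 ≤ y0 ∧ y0 ≤ D := by simpa using heR
        have h3 := sH x0 y0 hm.1
        rw [hZe, add_zero] at h3
        simp only [src_mk, tgt_true] at hcase
        rcases hcase with ⟨h4, h5⟩ | ⟨h4, h5⟩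
        · rw [← h4] at ih; rw [← h5]; simpa [h3] using ih
        · rw [← h5] at ih; rw [← h4]; simpa [h3] using ih
  have hend := hpath _ h2
  simp only at hend
  -- the bottom row
  have hrow : ∀ i, Z (i, 0, true) = (if i = p then (1 : ZMod 2) else 0)
      + (if i = q then (1 : ZMod 2) else 0) := by
    intro i
    have h4 := hZ2 i (-1)
    unfold bd at h4
    rw [hZout (i, -1, true) (by simp), hZout (i, -1, false) (by simp),
      hZout (i + 1, -1, false) (by simp), show (-1 : ℤ) + 1 = 0 by ring] at h4
    simp only [zero_add, add_zero] at h4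
    rw [h4]
    congr 1
    · split_ifs with h5
      · rw [h5, b2_of rfl]
      · rw [b2_not_of]
        simp only [Prod.mk.injEq]
        intro h6
        exact h5 h6.1.symm
    · split_ifs with h5
      · rw [h5, b2_of rfl]
      · rw [b2_not_of]
        simp only [Prod.mk.injEq]
        intro h6
        exact h5 h6.1.symm
  have hAp : A ≤ p := by
    by_contra hcon
    have h3 := hrow p
    rw [hZout (p, 0, true) (by simp; omega), if_pos rfl, if_neg (by omega), add_zero] at h3
    exact zero_ne_one h3
  have hAq : A ≤ q := by omega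
  have hsum : ∀ x r : ℤ, A ≤ r → ∑ i ∈ Finset.Ico A x, (if i = r then (1 : ZMod 2) else 0)
      = if r < x then 1 else 0 := by
    intro x r hr
    rw [Finset.sum_ite_eq' (Finset.Ico A x) r (fun _ => (1 : ZMod 2))]
    by_cases h : r < x
    · rw [if_pos (by rw [Finset.mem_Ico]; exact ⟨hr, h⟩), if_pos h]
    · rw [if_neg (by rw [Finset.mem_Ico]; omega), if_neg h]
  have hs0 : ∀ x, s x 0 = (if p < x then (1 : ZMod 2) else 0) + (if q < x then 1 else 0) := by
    intro x
    simp only [hs]
    rw [Finset.sum_congr rfl (fun i _ => hrow i), Finset.sum_add_distrib, hsum x p hAp,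
      hsum x q hAq]
  rw [hs0 u, hs0 v, if_pos hu.1, if_neg (show ¬ q < u by omega), add_zero] at hend
  rcases hv with h | h
  · rw [if_neg (show ¬ p < v by omega), if_neg (show ¬ q < v by omega), add_zero] at hend
    exact zero_ne_one hend
  · rw [if_pos (show p < v by omega), if_pos h] at hend
    rw [zmod2_add_self] at hend
    exact zero_ne_one hend

end H731C
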