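import Pool.Agent.H731R3.Cardy.Cross
import Pool.Agent.H731R3.Cardy.DualArm
import Pool.Agent.H731R3.Cardy.HalfBox
import Pool.Agent.H731R3.Cardy.NoHalf

/-!
Bounds for the probability that two boundary intervals are not connected (task I).
-/

namespace H731C

open H974 Finset

theorem P2_dual (S : Finset Edg) (B : Finset Edg → Prop) :
    P2 S (fun F => B (dmp (S \ F))) = P2 (dmp S) B := by
  unfold P2
  rw [pr_dmp]
  have h := Pr_compl (fun _ : Edg => (1/2 : ℝ)) S (fun F => B (dmp F))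
  have e : (fun _ : Edg => (1 : ℝ) - 1/2) = fun _ => (1/2 : ℝ) := by
    funext _
    norm_num
  rw [e] at h
  exact h.symm

theorem VE_subset_dmp {N : ℤ} : VE (-N) (N - 1) (-1) (N - 1) ⊆ dmp (RE (-N) N 0 N) := by
  rintro ⟨x, y, _ | _⟩ he
  · rw [mem_VE_false] at he
    rw [mem_dmp, dls_f, mem_RE_true]
    omega
  · rw [mem_VE_true] at he
    rw [mem_dmp, dls_t, mem_RE_false]
    omega

/-- a dual connection between bottom faces on both sides -/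
theorem XC_dreach {a b c d N : ℤ} {F : Finset Edg}
    (h : XC a b c d (-N) (N - 1) (-1) (N - 1) (dmp (RE (-N) N 0 N \ F))) :
    ∃ p q, (a ≤ p ∧ p ≤ b) ∧ (c ≤ q ∧ q ≤ d) ∧
      DReach ((↑F : Set Edg)ᶜ ∩ ↑(RE (-N) N 0 N)) (p, -1) (q, -1) := by
  obtain ⟨p, q, h1, h2, h3⟩ := h
  refine ⟨p, q, h1, h2, ?_⟩
  have h4 : Reach (dl '' (↑(RE (-N) N 0 N \ F) : Set Edg)) (p, -1) (q, -1) := by
    rw [← coe_dmp]
    exact h3.mono Set.inter_subset_left
  rw [reach_dl] at h4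
  refine h4.mono ?_
  intro e he
  rw [Finset.mem_coe, Finset.mem_sdiff] at he
  exact ⟨fun h => he.2 (Finset.mem_coe.mp h), Finset.mem_coe.mpr he.1⟩

private theorem tI_cube (c x y : ℝ) (hc : 0 ≤ c) (hx : 0 ≤ x) (hxy : 1 / 9 * x ≤ y) :
    c * (1 / 9 : ℝ) ^ ((1 : ℝ) / 3) * x ^ ((1 : ℝ) / 3) ≤ c * y ^ ((1 : ℝ) / 3) := by
  rw [mul_assoc, ← Real.mul_rpow (by norm_num) hx]
  exact mul_le_mul_of_nonneg_left (Real.rpow_le_rpow (by positivity) hxy (by norm_num)) hc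

theorem CN_compl_lower_left : ∃ c : ℝ, 0 < c ∧ ∀ a b c' d : ℤ, a ≤ b → b < c' → c' ≤ d →
    ∃ N0 : ℤ, ∀ N : ℤ, N0 ≤ N →
      c * (((c' - b : ℤ) : ℝ) / ((b - a + 1 + (c' - b) : ℤ) : ℝ)) ^ ((1 : ℝ) / 3) ≤
        P2 (RE (-N) N 0 N) (fun F => ¬ CN a b c' d (-N) N 0 N F) := by
  obtain ⟨c, hc, hX⟩ := XC_lower
  refine ⟨c * (1 / 9 : ℝ) ^ ((1 : ℝ) / 3), by positivity, ?_⟩
  intro a b c' d hab hbc hcd
  obtain ⟨b1, hb1⟩ : ∃ b1, b1 = min (b - a + 1) (c' - b) := ⟨_, rfl⟩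
  have hb1p : 1 ≤ b1 := by omega
  have hb1a : b1 ≤ b - a + 1 := by omega
  have hb1b : b1 ≤ c' - b := by omega
  obtain ⟨L, hL⟩ : ∃ L, L = (b + b1 - 1) - (a - (b - a + 1)) + 1 := ⟨_, rfl⟩
  refine ⟨|a| + (b - a + 1) + 10 * L + 1, ?_⟩
  intro N hN
  have ha1 := le_abs_self a
  have ha2 := neg_abs_le a
  have key := hX (a - (b - a + 1)) (a - 1) b (b + b1 - 1) (-1) (-N) (N - 1) (N - 1)
    (by omega) (by omega) (by omega) (by omega) (by omega) (by omega)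
    (dmp (RE (-N) N 0 N)) VE_subset_dmp
  have hmono : P2 (dmp (RE (-N) N 0 N))
      (XC (a - (b - a + 1)) (a - 1) b (b + b1 - 1) (-N) (N - 1) (-1) (N - 1)) ≤
      P2 (RE (-N) N 0 N) (fun F => ¬ CN a b c' d (-N) N 0 N F) := by
    rw [← P2_dual]
    apply Pr_mono okhalf2
    intro F hF h
    obtain ⟨p, q, hp, hq, hr⟩ := XC_dreach h
    rintro ⟨x, y, hx, hy, hxy⟩
    exact no_half (p := p) (q := q) (u := x) (v := y) (by omega) (by omega) hr hxy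
  refine le_trans ?_ (key.trans hmono)
  have e1 : ((a - 1 - (a - (b - a + 1)) + 1 : ℤ) : ℝ) = ((b - a + 1 : ℤ) : ℝ) := by
    congr 1
    ring
  have e2 : ((b + b1 - 1 - b + 1 : ℤ) : ℝ) = (b1 : ℝ) := by
    congr 1
    ring
  rw [e1, e2, ← hL]
  have hα : (1 : ℝ) ≤ ((b - a + 1 : ℤ) : ℝ) := by
    have : (1 : ℤ) ≤ b - a + 1 := by omega
    exact_mod_cast this
  have hβ : (1 : ℝ) ≤ ((c' - b : ℤ) : ℝ) := by
    have : (1 : ℤ) ≤ c' - b := by omega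
    exact_mod_cast this
  have hb1r : (1 : ℝ) ≤ (b1 : ℝ) := by exact_mod_cast hb1p
  have hL3 : (L : ℝ) ≤ 3 * ((b - a + 1 : ℤ) : ℝ) := by
    have : L ≤ 3 * (b - a + 1) := by omega
    exact_mod_cast this
  have hL0 : (0 : ℝ) < (L : ℝ) := by
    have : (0 : ℤ) < L := by omega
    exact_mod_cast this
  have hsum : ((b - a + 1 + (c' - b) : ℤ) : ℝ) = ((b - a + 1 : ℤ) : ℝ) + ((c' - b : ℤ) : ℝ) := by
    push_cast
    ring
  rw [hsum]
  set A : ℝ := ((b - a + 1 : ℤ) : ℝ) with hA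
  set B : ℝ := ((c' - b : ℤ) : ℝ) with hB
  have hmin : b1 = b - a + 1 ∨ b1 = c' - b := by omega
  have hq : B / (A + B) ≤ b1 / A := by
    rw [div_le_div_iff₀ (by positivity) (by positivity)]
    rcases hmin with h | h
    · have : (b1 : ℝ) = A := by rw [hA]; exact_mod_cast h
      rw [this]
      nlinarith
    · have : (b1 : ℝ) = B := by rw [hB]; exact_mod_cast h
      rw [this]
      nlinarith
  apply tI_cube _ _ _ hc.le (by positivity)
  have h9 : 1 / 9 * (b1 / A) ≤ A * b1 / (L : ℝ) ^ 2 := by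
    rw [div_mul_div_comm, div_le_div_iff₀ (by positivity) (by positivity)]
    have h1 : (L : ℝ) ^ 2 ≤ 9 * A ^ 2 := by nlinarith
    nlinarith [mul_le_mul_of_nonneg_left h1 (by positivity : (0 : ℝ) ≤ b1)]
  calc 1 / 9 * (B / (A + B)) ≤ 1 / 9 * (b1 / A) := by linarith
    _ ≤ _ := h9

theorem CN_compl_lower_right : ∃ c : ℝ, 0 < c ∧ ∀ a b c' d : ℤ, a ≤ b → b < c' → c' ≤ d →
    ∃ N0 : ℤ, ∀ N : ℤ, N0 ≤ N →
      c * (((c' - b : ℤ) : ℝ) / ((c' - b + (d - c' + 1) : ℤ) : ℝ)) ^ ((1 : ℝ) / 3) ≤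
        P2 (RE (-N) N 0 N) (fun F => ¬ CN a b c' d (-N) N 0 N F) := by
  obtain ⟨c, hc, hX⟩ := XC_lower
  refine ⟨c * (1 / 9 : ℝ) ^ ((1 : ℝ) / 3), by positivity, ?_⟩
  intro a b c' d hab hbc hcd
  obtain ⟨b1, hb1⟩ : ∃ b1, b1 = min (d - c' + 1) (c' - b) := ⟨_, rfl⟩
  have hb1p : 1 ≤ b1 := by omega
  have hb1a : b1 ≤ d - c' + 1 := by omega
  have hb1b : b1 ≤ c' - b := by omega
  obtain ⟨L, hL⟩ : ∃ L, L = (d + (d - c' + 1) - 1) - (c' - b1) + 1 := ⟨_, rfl⟩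
  refine ⟨|c' - b1| + 10 * L + 1, ?_⟩
  intro N hN
  have ha1 := le_abs_self (c' - b1)
  have ha2 := neg_abs_le (c' - b1)
  have key := hX (c' - b1) (c' - 1) d (d + (d - c' + 1) - 1) (-1) (-N) (N - 1) (N - 1)
    (by omega) (by omega) (by omega) (by omega) (by omega) (by omega)
    (dmp (RE (-N) N 0 N)) VE_subset_dmp
  have hmono : P2 (dmp (RE (-N) N 0 N))
      (XC (c' - b1) (c' - 1) d (d + (d - c' + 1) - 1) (-N) (N - 1) (-1) (N - 1)) ≤
      P2 (RE (-N) N 0 N) (fun F => ¬ CN a b c' d (-N) N 0 N F) := by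
    rw [← P2_dual]
    apply Pr_mono okhalf2
    intro F hF h
    obtain ⟨p, q, hp, hq, hr⟩ := XC_dreach h
    rintro ⟨x, y, hx, hy, hxy⟩
    exact no_half (p := p) (q := q) (u := y) (v := x) (by omega) (by omega) hr hxy.symm
  refine le_trans ?_ (key.trans hmono)
  have e1 : ((c' - 1 - (c' - b1) + 1 : ℤ) : ℝ) = (b1 : ℝ) := by
    congr 1
    ring
  have e2 : ((d + (d - c' + 1) - 1 - d + 1 : ℤ) : ℝ) = ((d - c' + 1 : ℤ) : ℝ) := by
    congr 1
    ring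
  rw [e1, e2, ← hL]
  have hα : (1 : ℝ) ≤ ((d - c' + 1 : ℤ) : ℝ) := by
    have : (1 : ℤ) ≤ d - c' + 1 := by omega
    exact_mod_cast this
  have hβ : (1 : ℝ) ≤ ((c' - b : ℤ) : ℝ) := by
    have : (1 : ℤ) ≤ c' - b := by omega
    exact_mod_cast this
  have hb1r : (1 : ℝ) ≤ (b1 : ℝ) := by exact_mod_cast hb1p
  have hL3 : (L : ℝ) ≤ 3 * ((d - c' + 1 : ℤ) : ℝ) := by
    have : L ≤ 3 * (d - c' + 1) := by omega
    exact_mod_cast this
  have hL0 : (0 : ℝ) < (L : ℝ) := by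
    have : (0 : ℤ) < L := by omega
    exact_mod_cast this
  have hsum : ((c' - b + (d - c' + 1) : ℤ) : ℝ) = ((d - c' + 1 : ℤ) : ℝ) + ((c' - b : ℤ) : ℝ) := by
    push_cast
    ring
  rw [hsum]
  set A : ℝ := ((d - c' + 1 : ℤ) : ℝ) with hA
  set B : ℝ := ((c' - b : ℤ) : ℝ) with hB
  have hmin : b1 = d - c' + 1 ∨ b1 = c' - b := by omega
  have hq : B / (A + B) ≤ b1 / A := by
    rw [div_le_div_iff₀ (by positivity) (by positivity)]
    rcases hmin with h | h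
    · have : (b1 : ℝ) = A := by rw [hA]; exact_mod_cast h
      rw [this]
      nlinarith
    · have : (b1 : ℝ) = B := by rw [hB]; exact_mod_cast h
      rw [this]
      nlinarith
  apply tI_cube _ _ _ hc.le (by positivity)
  have h9 : 1 / 9 * (b1 / A) ≤ b1 * A / (L : ℝ) ^ 2 := by
    rw [div_mul_div_comm, div_le_div_iff₀ (by positivity) (by positivity)]
    have h1 : (L : ℝ) ^ 2 ≤ 9 * A ^ 2 := by nlinarith
    nlinarith [mul_le_mul_of_nonneg_left h1 (by positivity : (0 : ℝ) ≤ b1)]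
  calc 1 / 9 * (B / (A + B)) ≤ 1 / 9 * (b1 / A) := by linarith
    _ ≤ _ := h9

theorem CN_compl_upper : ∃ C : ℝ, 0 < C ∧ ∀ a b c d : ℤ, a ≤ b → b < c → c ≤ d →
    ∃ N0 : ℤ, ∀ N : ℤ, N0 ≤ N →
      P2 (RE (-N) N 0 N) (fun F => ¬ CN a b c d (-N) N 0 N F) ≤
        C * (max (((c - b : ℤ) : ℝ) / ((b - a + 1 + (c - b) : ℤ) : ℝ))
          (((c - b : ℤ) : ℝ) / ((c - b + (d - c + 1) : ℤ) : ℝ))) ^ ((1 : ℝ) / 3) := by
  obtain ⟨C, hC, hH⟩ := HA_upper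
  have h4 : (0 : ℝ) < 4 ^ ((1 : ℝ) / 3) := by positivity
  have h8 : (0 : ℝ) < 8 ^ ((1 : ℝ) / 3) := by positivity
  refine ⟨C * 8 ^ ((1 : ℝ) / 3) + 4 ^ ((1 : ℝ) / 3), by positivity, ?_⟩
  intro a b c d hab hbc hcd
  obtain ⟨mu, hmu⟩ : ∃ mu, mu = min (b - a + 1) (d - c + 1) := ⟨_, rfl⟩
  refine ⟨|a| + |d| + |mu|, ?_⟩
  intro N hN
  have ha2 := neg_abs_le a
  have hd1 := le_abs_self d
  have hm1 := le_abs_self mu
  have ha0 := abs_nonneg a
  have hd0 := abs_nonneg d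
  have hm0 := abs_nonneg mu
  have hmup : 1 ≤ mu := by omega
  have hmur : (1 : ℝ) ≤ (mu : ℝ) := by exact_mod_cast hmup
  have hβ : (1 : ℝ) ≤ ((c - b : ℤ) : ℝ) := by
    have : (1 : ℤ) ≤ c - b := by omega
    exact_mod_cast this
  set B : ℝ := ((c - b : ℤ) : ℝ) with hB
  set M : ℝ := max (B / ((b - a + 1 + (c - b) : ℤ) : ℝ))
    (B / ((c - b + (d - c + 1) : ℤ) : ℝ)) with hM
  have hMmu : B / (mu + B) ≤ M := by
    have hmin : mu = b - a + 1 ∨ mu = d - c + 1 := by omega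
    rcases hmin with h | h
    · have e : ((b - a + 1 + (c - b) : ℤ) : ℝ) = (mu : ℝ) + B := by
        rw [hB, h]; push_cast; ring
      rw [hM, e]
      exact le_max_left _ _
    · have e : ((c - b + (d - c + 1) : ℤ) : ℝ) = (mu : ℝ) + B := by
        rw [hB, h]; push_cast; ring
      rw [hM, e]
      exact le_max_right _ _
  have hM0 : 0 ≤ M := le_trans (by positivity) hMmu
  rcases lt_or_ge (mu - 3) (c - b) with hlt | hge
  · -- small intervals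
    have h1 : P2 (RE (-N) N 0 N) (fun F => ¬ CN a b c d (-N) N 0 N F) ≤ 1 :=
      Pr_le_one okhalf2 _ _
    have h2 : (1 / 4 : ℝ) ≤ M := by
      refine le_trans ?_ hMmu
      have hmu3 : (mu : ℝ) ≤ 3 * B := by
        have : mu ≤ 3 * (c - b) := by omega
        rw [hB]
        exact_mod_cast this
      rw [div_le_div_iff₀ (by norm_num) (by positivity)]
      linarith
    have h3 : (1 / 4 : ℝ) ^ ((1 : ℝ) / 3) ≤ M ^ ((1 : ℝ) / 3) :=
      Real.rpow_le_rpow (by norm_num) h2 (by norm_num)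
    have h5 : (4 : ℝ) ^ ((1 : ℝ) / 3) * (1 / 4 : ℝ) ^ ((1 : ℝ) / 3) = 1 := by
      rw [← Real.mul_rpow (by norm_num) (by norm_num)]
      norm_num
    have h6 : (0 : ℝ) ≤ M ^ ((1 : ℝ) / 3) := by positivity
    calc P2 (RE (-N) N 0 N) (fun F => ¬ CN a b c d (-N) N 0 N F) ≤ 1 := h1
      _ = (4 : ℝ) ^ ((1 : ℝ) / 3) * (1 / 4 : ℝ) ^ ((1 : ℝ) / 3) := h5.symm
      _ ≤ (4 : ℝ) ^ ((1 : ℝ) / 3) * M ^ ((1 : ℝ) / 3) := mul_le_mul_of_nonneg_left h3 h4.le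
      _ ≤ (C * 8 ^ ((1 : ℝ) / 3) + 4 ^ ((1 : ℝ) / 3)) * M ^ ((1 : ℝ) / 3) := by
          have : 0 ≤ C * (8 : ℝ) ^ ((1 : ℝ) / 3) := by positivity
          nlinarith
  · obtain ⟨n, hn⟩ : ∃ n, n = mu - 3 := ⟨_, rfl⟩
    have hn1 : 1 ≤ n := by omega
    have hnr : (1 : ℝ) ≤ (n : ℝ) := by exact_mod_cast hn1
    have hstep : P2 (RE (-N) N 0 N) (fun F => ¬ CN a b c d (-N) N 0 N F) ≤
        P2 (dmp (RE (-N) N 0 N)) (HA b (-1) (c - b) n) := by
      rw [← P2_dual]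
      apply Pr_mono okhalf2
      intro F hF h
      exact dual_arm hab hbc hcd (by omega) (by omega) (by omega) (by omega) (by omega)
        (by omega) h
    have hstep2 : P2 (dmp (RE (-N) N 0 N)) (HA b (-1) (c - b) n) ≤
        P2 (dmp (RE (-N) N 0 N) ∪ RE (b - n) (b + n) (-1) (-1 + n)) (HA b (-1) (c - b) n) :=
      Pr_mono_set okhalf2 Finset.subset_union_left (HA_incr _ _ _ _ _)
    have hstep3 := hH b (-1) (c - b) n (by omega) (by omega)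
      (dmp (RE (-N) N 0 N) ∪ RE (b - n) (b + n) (-1) (-1 + n)) Finset.subset_union_right
    refine hstep.trans (hstep2.trans (hstep3.trans ?_))
    rw [← hB]
    have h1 : B / n ≤ 8 * M := by
      have h2 : B / n ≤ 8 * (B / (mu + B)) := by
        have hmun : (mu : ℝ) = n + 3 := by
          rw [hn]; push_cast; ring
        have hBn : B ≤ n := by
          rw [hB]
          exact_mod_cast (show c - b ≤ n by omega)
        rw [mul_div_assoc', div_le_div_iff₀ (by positivity) (by positivity), hmun]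
        nlinarith
      linarith
    calc C * (B / n) ^ ((1 : ℝ) / 3) ≤ C * (8 * M) ^ ((1 : ℝ) / 3) :=
          mul_le_mul_of_nonneg_left (Real.rpow_le_rpow (by positivity) h1 (by norm_num)) hC.le
      _ = (C * 8 ^ ((1 : ℝ) / 3)) * M ^ ((1 : ℝ) / 3) := by
          rw [Real.mul_rpow (by norm_num) hM0]
          ring
      _ ≤ (C * 8 ^ ((1 : ℝ) / 3) + 4 ^ ((1 : ℝ) / 3)) * M ^ ((1 : ℝ) / 3) := by
          have h6 : (0 : ℝ) ≤ M ^ ((1 : ℝ) / 3) := by positivity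
          nlinarith

end H731C
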