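import Pool.Agent.H731R3.Cardy.Defs
import Pool.Agent.H731R3.Cardy.Circ
import Pool.Agent.H731R3.Cardy.Interval

/-!
Task E: two boundary intervals, lower bound for the crossing probability.
-/

namespace H731C

open H974 Finset

theorem reach_VE_bottom {G : Set Edg} {a b c d : ℤ} {u v : Vtx} (hu : c ≤ u.2)
    (h : Reach (G ∩ ↑(VE a b c d)) u v) : c ≤ v.2 := by
  induction h with
  | refl => exact hu
  | tail _ hs _ =>
    obtain ⟨e, ⟨-, he⟩, hc⟩ := hs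
    have := RE_ends (VE_subset_RE (Finset.mem_coe.mp he))
    unfold inR at this
    rcases hc with ⟨h1, h2⟩ | ⟨h1, h2⟩
    · rw [← h2]; exact this.2.2.1
    · rw [← h1]; exact this.1.2.1

/-- the arm from the interval reaches the half-circle of radius `3 L` around `a`. -/
theorem arm_to_circle {a L t z x : ℤ} {F : Set Edg} (_hL : 1 ≤ L)
    (hz : a ≤ z ∧ z ≤ a + L) (hx : a ≤ x ∧ x ≤ a + L) {v : Vtx} (hv : onH z t (4 * L) v)
    (h : Reach (F ∩ ↑(VE (z - 4 * L) (z + 4 * L) t (t + 4 * L))) (x, t) v) :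
    ∃ w, onH a t (3 * L) w ∧
      Reach (F ∩ ↑(VE (a - 3 * L) (a + 3 * L) t (t + 3 * L))) (x, t) w := by
  obtain ⟨w, hw1, hw2, hw3⟩ := first_exit (a := a - 3 * L) (b := a + 3 * L) (c := t - 1)
    (d := t + 3 * L) (u := (x, t)) (by unfold inR; simp only; omega) h
    (by
      unfold onH at hv
      rcases hv with hv | hv | hv
      · left; omega
      · right; left; omega
      · right; right; right; omega)
  have hsub : (F ∩ ↑(VE (z - 4 * L) (z + 4 * L) t (t + 4 * L))) ∩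
      ↑(RE (a - 3 * L) (a + 3 * L) (t - 1) (t + 3 * L)) ⊆
      F ∩ (↑(VE (a - 3 * L) (a + 3 * L) t (t + 3 * L)) : Set Edg) := by
    rintro ⟨x0, y0, bo⟩ ⟨⟨h1, h2⟩, h3⟩
    refine ⟨h1, ?_⟩
    cases bo
    · simp only [mem_coe, mem_VE_false, mem_RE_false] at h2 h3 ⊢
      omega
    · simp only [mem_coe, mem_VE_true, mem_RE_true] at h2 h3 ⊢
      omega
  have hr := hw3.mono hsub
  have hb := reach_VE_bottom (by simp) hr
  refine ⟨w, ?_, hr⟩
  unfold onH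
  rcases hw2 with h1 | h1 | h1 | h1
  · left; exact h1
  · right; left; exact h1
  · exfalso; omega
  · right; right; exact h1

theorem XC_of_events {a b c' d t A B D z1 z2 L : ℤ} (hL : L = d - a + 1) (hab : a ≤ b)
    (hbc : b < c') (hcd : c' ≤ d) (hA : A ≤ a - 10 * L) (hB : a + 10 * L ≤ B)
    (hD : t + 10 * L ≤ D) (hz1 : a ≤ z1 ∧ z1 ≤ b) (hz2 : c' ≤ z2 ∧ z2 ≤ d) {F : Finset Edg}
    (h1 : IA a b z1 t (4 * L) F) (h2 : IA c' d z2 t (4 * L) F) (h3 : HC a t L F) :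
    XC a b c' d A B t D F := by
  obtain ⟨x, v, hx, hv, hr⟩ := h1
  obtain ⟨y, v', hy, hv', hr'⟩ := h2
  obtain ⟨fl, fr, -, -, hm⟩ := HC_meetV (z := a) (t := t) (r := L) (by omega) h3
  obtain ⟨w, hw, hrw⟩ := arm_to_circle (a := a) (L := L) (by omega) (by omega) (by omega) hv hr
  obtain ⟨w', hw', hrw'⟩ := arm_to_circle (a := a) (L := L) (by omega) (by omega) (by omega) hv' hr'
  have m1 := (hm (x, t) w (by unfold inR; simp only; omega) hw hrw).2
  have m2 := (hm (y, t) w' (by unfold inR; simp only; omega) hw' hrw').2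
  have hsub : (↑F : Set Edg) ∩ ↑(VE (a - 3 * L) (a + 3 * L) t (t + 3 * L)) ⊆ ↑F ∩ ↑(VE A B t D) :=
    Set.inter_subset_inter_right _
      (by exact_mod_cast VE_mono (by omega) (by omega) (by omega))
  exact ⟨x, y, hx, hy, (m1.trans m2.symm).mono hsub⟩

theorem XC_lower : ∃ c : ℝ, 0 < c ∧ ∀ a b c' d t A B D : ℤ, a ≤ b → b < c' → c' ≤ d →
    A ≤ a - 10 * (d - a + 1) → a + 10 * (d - a + 1) ≤ B → t + 10 * (d - a + 1) ≤ D →
    ∀ S : Finset Edg, VE A B t D ⊆ S →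
    c * ((((b - a + 1 : ℤ) : ℝ) * ((d - c' + 1 : ℤ) : ℝ)) / ((d - a + 1 : ℤ) : ℝ) ^ 2)
        ^ ((1 : ℝ) / 3) ≤ P2 S (XC a b c' d A B t D) := by
  obtain ⟨c, hc, hIA⟩ := IA_lower
  refine ⟨c * c * (1/2 : ℝ) ^ 141 * (1/16 : ℝ) ^ ((1 : ℝ) / 3), by positivity, ?_⟩
  intro a b c' d t A B D hab hbc hcd hA hB hD S hS
  set L : ℤ := d - a + 1 with hL
  have hL2 : 2 ≤ L := by omega
  obtain ⟨z1, hz1, h1⟩ := hIA a b t (4 * L) hab (by omega)
  obtain ⟨z2, hz2, h2⟩ := hIA c' d t (4 * L) hcd (by omega)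
  have e1 := h1 S ((VE_mono (by omega) (by omega) (by omega)).trans hS)
  have e2 := h2 S ((VE_mono (by omega) (by omega) (by omega)).trans hS)
  have e3 := pr_HC (z := a) (t := t) (r := L) (by omega) (S := S)
    ((VE_mono (by omega) (by omega) (by omega)).trans hS)
  have i1 := Pr_harris okhalf2 (S := S) (IA_incr S a b z1 t (4 * L)) (IA_incr S c' d z2 t (4 * L))
  have c12 : IncrE S (fun F => IA a b z1 t (4 * L) F ∧ IA c' d z2 t (4 * L) F) :=
    fun F G h hG hF => ⟨IA_incr S a b z1 t (4 * L) F G h hG hF.1,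
      IA_incr S c' d z2 t (4 * L) F G h hG hF.2⟩
  have i2 := Pr_harris okhalf2 (S := S) c12 (HC_incr S a t L)
  have i3 : P2 S (fun F => (IA a b z1 t (4 * L) F ∧ IA c' d z2 t (4 * L) F) ∧ HC a t L F)
      ≤ P2 S (XC a b c' d A B t D) := by
    apply Pr_mono okhalf2
    rintro F _ ⟨⟨k1, k2⟩, k3⟩
    exact XC_of_events hL hab hbc hcd hA hB hD hz1 hz2 k1 k2 k3
  set al : ℝ := ((b - a + 1 : ℤ) : ℝ) with hal
  set ga : ℝ := ((d - c' + 1 : ℤ) : ℝ) with hga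
  have hal0 : 0 < al := by rw [hal]; exact_mod_cast (by omega : 0 < b - a + 1)
  have hga0 : 0 < ga := by rw [hga]; exact_mod_cast (by omega : 0 < d - c' + 1)
  have hLr : (0 : ℝ) < (L : ℝ) := by exact_mod_cast (by omega : 0 < L)
  have e4 : (((4 * L : ℤ)) : ℝ) = 4 * (L : ℝ) := by push_cast; ring
  rw [e4] at e1 e2
  have hx1 : 0 ≤ c * (al / (4 * (L : ℝ))) ^ ((1 : ℝ) / 3) := by positivity
  have hx2 : 0 ≤ c * (ga / (4 * (L : ℝ))) ^ ((1 : ℝ) / 3) := by positivity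
  have hkey : c * c * (1/2 : ℝ) ^ 141 * (1/16 : ℝ) ^ ((1 : ℝ) / 3) *
      (al * ga / (L : ℝ) ^ 2) ^ ((1 : ℝ) / 3)
      = (c * (al / (4 * (L : ℝ))) ^ ((1 : ℝ) / 3)) * (c * (ga / (4 * (L : ℝ))) ^ ((1 : ℝ) / 3))
        * (1/2 : ℝ) ^ 141 := by
    have h3 : (1/16 : ℝ) ^ ((1 : ℝ) / 3) * (al * ga / (L : ℝ) ^ 2) ^ ((1 : ℝ) / 3)
        = (al / (4 * (L : ℝ))) ^ ((1 : ℝ) / 3) * (ga / (4 * (L : ℝ))) ^ ((1 : ℝ) / 3) := by
      rw [← Real.mul_rpow (by positivity) (by positivity),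
        ← Real.mul_rpow (by positivity) (by positivity)]
      congr 1
      field_simp
      norm_num
    calc c * c * (1/2 : ℝ) ^ 141 * (1/16 : ℝ) ^ ((1 : ℝ) / 3) *
        (al * ga / (L : ℝ) ^ 2) ^ ((1 : ℝ) / 3)
        = c * c * (1/2 : ℝ) ^ 141 * ((1/16 : ℝ) ^ ((1 : ℝ) / 3) *
          (al * ga / (L : ℝ) ^ 2) ^ ((1 : ℝ) / 3)) := by ring
      _ = _ := by rw [h3]; ring
  rw [hkey]
  calc (c * (al / (4 * (L : ℝ))) ^ ((1 : ℝ) / 3)) * (c * (ga / (4 * (L : ℝ))) ^ ((1 : ℝ) / 3))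
        * (1/2 : ℝ) ^ 141
      ≤ (P2 S (IA a b z1 t (4 * L)) * P2 S (IA c' d z2 t (4 * L))) * P2 S (HC a t L) := by
        apply mul_le_mul
        · exact mul_le_mul e1 e2 hx2 (hx1.trans e1)
        · exact e3
        · positivity
        · exact mul_nonneg (hx1.trans e1) (hx2.trans e2)
    _ ≤ P2 S (fun F => IA a b z1 t (4 * L) F ∧ IA c' d z2 t (4 * L) F) * P2 S (HC a t L) := by
        apply mul_le_mul_of_nonneg_right i1
        exact le_trans (by positivity) e3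
    _ ≤ _ := i2
    _ ≤ _ := i3

end H731C
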