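import Pool.Agent.H974R2.Circ

/-!
Crossing probabilities of critical bond percolation in the half-plane: definitions.

`t` is always the bottom row of the half-plane.  `VE` is the half-plane rectangle without the
horizontal edges of the bottom row (this is what one sees on the dual lattice).
-/

namespace H731C

open H974 Finset

/-- Probability of an event when every edge of `S` is open with probability `1/2`. -/
noncomputable abbrev P2 (S : Finset Edg) (A : Finset Edg → Prop) : ℝ :=
  Pr (fun _ => (1/2 : ℝ)) S A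

/-- `v` is on the left, right or top side of the half-box of radius `n` around `(z, t)`. -/
def onH (z t n : ℤ) (v : Vtx) : Prop := v.1 = z - n ∨ v.1 = z + n ∨ v.2 = t + n

/-- Edges of `[a, b] × [c, d]` except the horizontal edges of the bottom row. -/
noncomputable def VE (a b c d : ℤ) : Finset Edg :=
  (RE a b c d).filter (fun e => e.2.2 = true → c < e.2.1)

theorem mem_VE_true {a b c d x y : ℤ} :
    ((x, y, true) : Edg) ∈ VE a b c d ↔ (a ≤ x ∧ x < b) ∧ (c < y ∧ y ≤ d) := by
  unfold VE
  rw [Finset.mem_filter, mem_RE_true]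
  simp only [forall_const]
  omega

theorem mem_VE_false {a b c d x y : ℤ} :
    ((x, y, false) : Edg) ∈ VE a b c d ↔ (a ≤ x ∧ x ≤ b) ∧ (c ≤ y ∧ y < d) := by
  unfold VE
  rw [Finset.mem_filter, mem_RE_false]
  simp
  omega

theorem VE_subset_RE {a b c d : ℤ} : VE a b c d ⊆ RE a b c d := Finset.filter_subset _ _

/-- One arm from the boundary point `(z, t)` to distance `n` in the half-plane. -/
def AR (z t n : ℤ) (F : Finset Edg) : Prop :=
  ∃ v, onH z t n v ∧ Reach (↑F ∩ ↑(RE (z - n) (z + n) t (t + n))) (z, t) v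

/-- The half-box of radius `m` is connected to distance `n` in the half-plane. -/
def HA (z t m n : ℤ) (F : Finset Edg) : Prop :=
  ∃ u v, inR (z - m) (z + m) t (t + m) u ∧ onH z t n v ∧
    Reach (↑F ∩ ↑(RE (z - n) (z + n) t (t + n))) u v

/-- The same without the horizontal edges of the bottom row. -/
def HAV (z t m n : ℤ) (F : Finset Edg) : Prop :=
  ∃ u v, inR (z - m) (z + m) t (t + m) u ∧ onH z t n v ∧
    Reach (↑F ∩ ↑(VE (z - n) (z + n) t (t + n))) u v

/-- Three crossings which form a half-circuit in the half-annulus of radii `r` and `3 r`. -/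
def HC (z t r : ℤ) (F : Finset Edg) : Prop :=
  LRc (z - 3 * r) (z + 3 * r) (t + r) (t + 3 * r) F ∧
    TBc (z + r) (z + 3 * r) t (t + 3 * r) F ∧ TBc (z - 3 * r) (z - r) t (t + 3 * r) F

/-- The boundary interval `[a, b] × {t}` is connected to distance `n` from `(z, t)`. -/
def IA (a b z t n : ℤ) (F : Finset Edg) : Prop :=
  ∃ x v, (a ≤ x ∧ x ≤ b) ∧ onH z t n v ∧ Reach (↑F ∩ ↑(VE (z - n) (z + n) t (t + n))) (x, t) v

/-- The boundary intervals `[a, b] × {t}` and `[c, d] × {t}` are connected inside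
`[A, B] × [t, D]`, without the horizontal edges of the bottom row. -/
def XC (a b c d A B t D : ℤ) (F : Finset Edg) : Prop :=
  ∃ x y, (a ≤ x ∧ x ≤ b) ∧ (c ≤ y ∧ y ≤ d) ∧ Reach (↑F ∩ ↑(VE A B t D)) (x, t) (y, t)

/-- The boundary intervals `[a, b] × {t}` and `[c, d] × {t}` are connected inside
`[A, B] × [t, D]`. -/
def CN (a b c d A B t D : ℤ) (F : Finset Edg) : Prop :=
  ∃ x y, (a ≤ x ∧ x ≤ b) ∧ (c ≤ y ∧ y ≤ d) ∧ Reach (↑F ∩ ↑(RE A B t D)) (x, t) (y, t)

/-- The crossing event in the half-box `[-N, N] × [0, N]`. -/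
def CB (a b c d N : ℤ) (F : Finset Edg) : Prop := CN a b c d (-N) N 0 N F

/-! ### Small tools -/

theorem okhalf2 : Ok (fun _ : Edg => (1/2 : ℝ)) := okq (by norm_num) (by norm_num)

theorem RE_ends {a b c d : ℤ} {e : Edg} (he : e ∈ RE a b c d) :
    inR a b c d (src e) ∧ inR a b c d (tgt e) := by
  obtain ⟨x, y, _ | _⟩ := e
  · rw [mem_RE_false] at he
    simp only [src_mk, tgt_false, inR]
    omega
  · rw [mem_RE_true] at he
    simp only [src_mk, tgt_true, inR]
    omega

theorem RE_of_ends {a b c d : ℤ} {e : Edg} (h1 : inR a b c d (src e))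
    (h2 : inR a b c d (tgt e)) : e ∈ RE a b c d := by
  obtain ⟨x, y, _ | _⟩ := e
  · rw [mem_RE_false]
    simp only [src_mk, tgt_false, inR] at h1 h2
    omega
  · rw [mem_RE_true]
    simp only [src_mk, tgt_true, inR] at h1 h2
    omega

/-- the end of a nontrivial path lies in the rectangle which contains its edges -/
theorem reach_inR {G : Set Edg} {a b c d : ℤ} {u v : Vtx} (hu : inR a b c d u)
    (h : Reach (G ∩ ↑(RE a b c d)) u v) : inR a b c d v := by
  induction h with
  | refl => exact hu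
  | tail _ hs _ =>
    obtain ⟨e, ⟨-, he⟩, hc⟩ := hs
    have := RE_ends (Finset.mem_coe.mp he)
    rcases hc with ⟨h1, h2⟩ | ⟨h1, h2⟩
    · rw [← h2]; exact this.2
    · rw [← h1]; exact this.1

/-- Probability of an event which only looks at the edges of `S'`. -/
theorem P2_restrict {S S' : Finset Edg} (hS : S' ⊆ S) (A : Finset Edg → Prop) :
    P2 S (fun F => A (F ∩ S')) = P2 S' A := by
  unfold P2
  rw [Pr_local hS (A := fun F => A (F ∩ S'))]
  · apply Pr_congr
    intro F hF
    rw [Finset.inter_eq_left.mpr hF]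
  · intro F _
    rw [Finset.inter_assoc, Finset.inter_self]

/-- Independence. -/
theorem P2_indep {U S T : Finset Edg} (hS : S ⊆ U) (hT : T ⊆ U) (hd : Disjoint S T)
    (A B : Finset Edg → Prop) :
    P2 U (fun F => A (F ∩ S) ∧ B (F ∩ T)) = P2 S A * P2 T B := by
  unfold P2
  rw [Pr_indep hS hT hd (A := fun F => A (F ∩ S)) (B := fun F => B (F ∩ T))]
  · have h1 := P2_restrict hS A
    have h2 := P2_restrict hT B
    unfold P2 at h1 h2
    rw [h1, h2]
  · intro F _
    rw [Finset.inter_assoc, Finset.inter_self]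
  · intro F _
    rw [Finset.inter_assoc, Finset.inter_self]

theorem IA_incr (S : Finset Edg) (a b z t n : ℤ) : IncrE S (IA a b z t n) := by
  rintro F G h _ ⟨x, v, h1, h2, h3⟩
  exact ⟨x, v, h1, h2, h3.mono (Set.inter_subset_inter_left _ (by exact_mod_cast h))⟩

theorem XC_incr (S : Finset Edg) (a b c d A B t D : ℤ) : IncrE S (XC a b c d A B t D) := by
  rintro F G h _ ⟨x, v, h1, h2, h3⟩
  exact ⟨x, v, h1, h2, h3.mono (Set.inter_subset_inter_left _ (by exact_mod_cast h))⟩

theorem CN_incr (S : Finset Edg) (a b c d A B t D : ℤ) : IncrE S (CN a b c d A B t D) := by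
  rintro F G h _ ⟨x, v, h1, h2, h3⟩
  exact ⟨x, v, h1, h2, h3.mono (Set.inter_subset_inter_left _ (by exact_mod_cast h))⟩

theorem AR_incr (S : Finset Edg) (z t n : ℤ) : IncrE S (AR z t n) := by
  rintro F G h _ ⟨v, h1, h2⟩
  exact ⟨v, h1, h2.mono (Set.inter_subset_inter_left _ (by exact_mod_cast h))⟩

theorem HA_incr (S : Finset Edg) (z t m n : ℤ) : IncrE S (HA z t m n) := by
  rintro F G h _ ⟨u, v, h1, h2, h3⟩
  exact ⟨u, v, h1, h2, h3.mono (Set.inter_subset_inter_left _ (by exact_mod_cast h))⟩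

theorem HAV_incr (S : Finset Edg) (z t m n : ℤ) : IncrE S (HAV z t m n) := by
  rintro F G h _ ⟨u, v, h1, h2, h3⟩
  exact ⟨u, v, h1, h2, h3.mono (Set.inter_subset_inter_left _ (by exact_mod_cast h))⟩

end H731C
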