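import Pool.Agent.H731R3.Cardy.Inf

/-!
Crossing probabilities of boundary intervals in the half-plane: final bounds.
-/

namespace H731C

open H974 MeasureTheory Filter Topology Finset

/-- The cross-ratio `(z₂ - z₁) (z₄ - z₃) / ((z₃ - z₁) (z₄ - z₂))`. -/
noncomputable def crossRatio (z₁ z₂ z₃ z₄ : ℝ) : ℝ :=
  ((z₂ - z₁) * (z₄ - z₃)) / ((z₃ - z₁) * (z₄ - z₂))

theorem third_half : (1 : ℝ) / 2 ≤ ((1 : ℝ) / 2) ^ ((1 : ℝ) / 3) := by
  conv_lhs => rw [← Real.rpow_one ((1 : ℝ) / 2)]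
  exact Real.rpow_le_rpow_of_exponent_ge (by norm_num) (by norm_num) (by norm_num)

theorem half_rpow {x : ℝ} (hx : 0 ≤ x) :
    1 / 2 * x ^ ((1 : ℝ) / 3) ≤ (x / 2) ^ ((1 : ℝ) / 3) := by
  have h : x / 2 = 1 / 2 * x := by ring
  rw [h, Real.mul_rpow (by norm_num) hx]
  exact mul_le_mul_of_nonneg_right third_half (Real.rpow_nonneg hx _)

/-- power bounds in boxes -/
theorem box_bounds : ∃ c C : ℝ, 0 < c ∧ 0 < C ∧ ∀ a b c' d : ℤ, a ≤ b → b < c' → c' ≤ d →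
    ∀ s u : ℝ, s = ((c' - b : ℤ) : ℝ) / ((b - a + 1 + (c' - b) : ℤ) : ℝ) →
      u = ((c' - b : ℤ) : ℝ) / ((c' - b + (d - c' + 1) : ℤ) : ℝ) →
    ∃ N0 : ℤ, ∀ N : ℤ, N0 ≤ N →
      c * ((1 - s) * (1 - u)) ^ ((1 : ℝ) / 3) ≤ P2 (RE (-N) N 0 N) (CN a b c' d (-N) N 0 N) ∧
      P2 (RE (-N) N 0 N) (CN a b c' d (-N) N 0 N) ≤ C * ((1 - s) * (1 - u)) ^ ((1 : ℝ) / 3) ∧
      c * s ^ ((1 : ℝ) / 3) ≤ 1 - P2 (RE (-N) N 0 N) (CN a b c' d (-N) N 0 N) ∧
      c * u ^ ((1 : ℝ) / 3) ≤ 1 - P2 (RE (-N) N 0 N) (CN a b c' d (-N) N 0 N) ∧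
      1 - P2 (RE (-N) N 0 N) (CN a b c' d (-N) N 0 N) ≤ C * (max s u) ^ ((1 : ℝ) / 3) := by
  obtain ⟨c1, hc1, H1⟩ := CN_lower
  obtain ⟨C1, hC1, H2⟩ := CN_upper
  obtain ⟨c2, hc2, H3⟩ := CN_compl_lower_left
  obtain ⟨c3, hc3, H4⟩ := CN_compl_lower_right
  obtain ⟨C2, hC2, H5⟩ := CN_compl_upper
  refine ⟨min c1 (min c2 c3), max C1 C2, lt_min hc1 (lt_min hc2 hc3), lt_max_of_lt_left hC1, ?_⟩
  intro a b c' d hab hbc hcd s u hs hu
  obtain ⟨N1, h1⟩ := H1 a b c' d hab hbc hcd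
  obtain ⟨N3, h3⟩ := H3 a b c' d hab hbc hcd
  obtain ⟨N4, h4⟩ := H4 a b c' d hab hbc hcd
  obtain ⟨N5, h5⟩ := H5 a b c' d hab hbc hcd
  have hα : (1 : ℝ) ≤ ((b - a + 1 : ℤ) : ℝ) := by exact_mod_cast (by omega : (1:ℤ) ≤ b - a + 1)
  have hβ : (1 : ℝ) ≤ ((c' - b : ℤ) : ℝ) := by exact_mod_cast (by omega : (1:ℤ) ≤ c' - b)
  have hγ : (1 : ℝ) ≤ ((d - c' + 1 : ℤ) : ℝ) := by exact_mod_cast (by omega : (1:ℤ) ≤ d - c' + 1)
  have e1 : ((b - a + 1 + (c' - b) : ℤ) : ℝ) = ((b - a + 1 : ℤ) : ℝ) + ((c' - b : ℤ) : ℝ) := by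
    push_cast; ring
  have e2 : ((c' - b + (d - c' + 1) : ℤ) : ℝ) = ((c' - b : ℤ) : ℝ) + ((d - c' + 1 : ℤ) : ℝ) := by
    push_cast; ring
  have hs1 : ((b - a + 1 : ℤ) : ℝ) / ((b - a + 1 + (c' - b) : ℤ) : ℝ) = 1 - s := by
    rw [hs, e1]
    field_simp
    ring
  have hu1 : ((d - c' + 1 : ℤ) : ℝ) / ((c' - b + (d - c' + 1) : ℤ) : ℝ) = 1 - u := by
    rw [hu, e2]
    field_simp
    ring
  have hs0 : 0 ≤ s := by rw [hs, e1]; positivity
  have hu0 : 0 ≤ u := by rw [hu, e2]; positivity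
  have hs2 : 0 ≤ 1 - s := by rw [← hs1, e1]; positivity
  have hu2 : 0 ≤ 1 - u := by rw [← hu1, e2]; positivity
  refine ⟨max (max N1 (max N3 (max N4 N5))) (max (|a| + |d| + (c' - b)) 0), ?_⟩
  intro N hN
  have hN1 : N1 ≤ N := le_trans (le_trans (le_max_left _ _) (le_max_left _ _)) hN
  have hN3 : N3 ≤ N := le_trans (le_trans (le_trans (le_max_left _ _) (le_max_right _ _))
    (le_max_left _ _)) hN
  have hN4 : N4 ≤ N := le_trans (le_trans (le_trans (le_trans (le_max_left _ _) (le_max_right _ _))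
    (le_max_right _ _)) (le_max_left _ _)) hN
  have hN5 : N5 ≤ N := le_trans (le_trans (le_trans (le_trans (le_max_right _ _) (le_max_right _ _))
    (le_max_right _ _)) (le_max_left _ _)) hN
  have hN6 : |a| + |d| + (c' - b) ≤ N := le_trans (le_trans (le_max_left _ _) (le_max_right _ _)) hN
  have ha := abs_le.mp (le_refl |a|)
  have hd := abs_le.mp (le_refl |d|)
  have ha0 := abs_nonneg a
  have hd0 := abs_nonneg d
  have g1 := h1 N hN1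
  have g2 := H2 a b c' d (-N) N 0 N hab hbc hcd (by omega) (by omega) (by omega)
  have g3 := h3 N hN3
  have g4 := h4 N hN4
  have g5 := h5 N hN5
  rw [hs1, hu1] at g1 g2
  rw [← hs] at g3 g5
  rw [← hu] at g4 g5
  unfold P2 at g3 g4 g5
  rw [Pr_not] at g3 g4 g5
  have p1 : 0 ≤ ((1 - s) * (1 - u)) ^ ((1 : ℝ) / 3) := by positivity
  have p2 : 0 ≤ s ^ ((1 : ℝ) / 3) := by positivity
  have p3 : 0 ≤ u ^ ((1 : ℝ) / 3) := by positivity
  have p4 : 0 ≤ (max s u) ^ ((1 : ℝ) / 3) :=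
    Real.rpow_nonneg (le_trans hs0 (le_max_left _ _)) _
  refine ⟨?_, ?_, ?_, ?_, ?_⟩
  · exact le_trans (mul_le_mul_of_nonneg_right (min_le_left _ _) p1) g1
  · exact le_trans g2 (mul_le_mul_of_nonneg_right (le_max_left _ _) p1)
  · exact le_trans (mul_le_mul_of_nonneg_right
      (le_trans (min_le_right _ _) (min_le_left _ _)) p2) g3
  · exact le_trans (mul_le_mul_of_nonneg_right
      (le_trans (min_le_right _ _) (min_le_right _ _)) p3) g4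
  · exact le_trans g5 (mul_le_mul_of_nonneg_right (le_max_right _ _) p4)

/-- power bounds in the half-plane -/
theorem half_bounds : ∃ c C : ℝ, 0 < c ∧ 0 < C ∧ ∀ a b c' d : ℤ, a ≤ b → b < c' → c' ≤ d →
    ∀ s u : ℝ, s = ((c' - b : ℤ) : ℝ) / ((b - a + 1 + (c' - b) : ℤ) : ℝ) →
      u = ((c' - b : ℤ) : ℝ) / ((c' - b + (d - c' + 1) : ℤ) : ℝ) →
      c * ((1 - s) * (1 - u)) ^ ((1 : ℝ) / 3) ≤ crossProb (Set.Icc a b) (Set.Icc c' d) ∧
      crossProb (Set.Icc a b) (Set.Icc c' d) ≤ C * ((1 - s) * (1 - u)) ^ ((1 : ℝ) / 3) ∧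
      c * s ^ ((1 : ℝ) / 3) ≤ 1 - crossProb (Set.Icc a b) (Set.Icc c' d) ∧
      c * u ^ ((1 : ℝ) / 3) ≤ 1 - crossProb (Set.Icc a b) (Set.Icc c' d) ∧
      1 - crossProb (Set.Icc a b) (Set.Icc c' d) ≤ C * (max s u) ^ ((1 : ℝ) / 3) := by
  obtain ⟨c, C, hc, hC, H⟩ := box_bounds
  refine ⟨c, C, hc, hC, ?_⟩
  intro a b c' d hab hbc hcd s u hs hu
  obtain ⟨N0, h⟩ := H a b c' d hab hbc hcd s u hs hu
  have ht := crossProb_tendsto a b c' d
  have ht' := ht.const_sub 1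
  have hev : ∀ᶠ N : ℕ in atTop, N0 ≤ (N : ℤ) := by
    filter_upwards [eventually_ge_atTop N0.toNat] with N hN
    omega
  refine ⟨ge_of_tendsto ht ?_, le_of_tendsto ht ?_, ge_of_tendsto ht' ?_, ge_of_tendsto ht' ?_,
    le_of_tendsto ht' ?_⟩
  · filter_upwards [hev] with N hN using (h N hN).1
  · filter_upwards [hev] with N hN using (h N hN).2.1
  · filter_upwards [hev] with N hN using (h N hN).2.2.1
  · filter_upwards [hev] with N hN using (h N hN).2.2.2.1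
  · filter_upwards [hev] with N hN using (h N hN).2.2.2.2

/-- power bounds for half-infinite intervals -/
theorem half_bounds_Iic : ∃ c C : ℝ, 0 < c ∧ 0 < C ∧ ∀ b c' d : ℤ, b < c' → c' ≤ d →
    ∀ u : ℝ, u = ((c' - b : ℤ) : ℝ) / ((c' - b + (d - c' + 1) : ℤ) : ℝ) →
      c * (1 - u) ^ ((1 : ℝ) / 3) ≤ crossProb (Set.Iic b) (Set.Icc c' d) ∧
      crossProb (Set.Iic b) (Set.Icc c' d) ≤ C * (1 - u) ^ ((1 : ℝ) / 3) ∧
      c * u ^ ((1 : ℝ) / 3) ≤ 1 - crossProb (Set.Iic b) (Set.Icc c' d) ∧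
      1 - crossProb (Set.Iic b) (Set.Icc c' d) ≤ C * u ^ ((1 : ℝ) / 3) := by
  obtain ⟨c, C, hc, hC, H⟩ := half_bounds
  refine ⟨1 / 2 * c, C, by positivity, hC, ?_⟩
  intro b c' d hbc hcd u hu
  have ht := crossProb_Iic_tendsto b c' d
  have ht' := ht.const_sub 1
  have hβ : (1 : ℝ) ≤ ((c' - b : ℤ) : ℝ) := by exact_mod_cast (by omega : (1:ℤ) ≤ c' - b)
  have hγ : (1 : ℝ) ≤ ((d - c' + 1 : ℤ) : ℝ) := by exact_mod_cast (by omega : (1:ℤ) ≤ d - c' + 1)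
  have e2 : ((c' - b + (d - c' + 1) : ℤ) : ℝ) = ((c' - b : ℤ) : ℝ) + ((d - c' + 1 : ℤ) : ℝ) := by
    push_cast; ring
  have hu0 : 0 < u := by rw [hu, e2]; positivity
  have hu1 : ((d - c' + 1 : ℤ) : ℝ) / ((c' - b + (d - c' + 1) : ℤ) : ℝ) = 1 - u := by
    rw [hu, e2]
    field_simp
    ring
  have hu2 : 0 ≤ 1 - u := by rw [← hu1, e2]; positivity
  -- the left interval is eventually long
  have hev : ∀ᶠ M : ℕ in atTop, -(M : ℤ) ≤ b ∧
      ((c' - b : ℤ) : ℝ) / ((b - -(M : ℤ) + 1 + (c' - b) : ℤ) : ℝ) ≤ min (1/2) u ∧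
      0 ≤ ((c' - b : ℤ) : ℝ) / ((b - -(M : ℤ) + 1 + (c' - b) : ℤ) : ℝ) := by
    have e : ∀ᶠ M : ℕ in atTop, ((c' - b : ℤ) : ℝ) / min (1/2) u ≤ (M : ℝ) ∧
        ((c' - b : ℤ) : ℝ) / min (1/2) u ≤ (M : ℝ) := by
      filter_upwards [eventually_ge_atTop ⌈((c' - b : ℤ) : ℝ) / min (1/2) u⌉₊] with M hM
      have := le_trans (Nat.le_ceil _) (by exact_mod_cast hM : ((⌈((c' - b : ℤ) : ℝ) / min (1/2) u⌉₊ : ℕ) : ℝ) ≤ M)
      exact ⟨this, this⟩
    have hmin : 0 < min (1/2) u := lt_min (by norm_num) hu0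
    filter_upwards [e, eventually_ge_atTop (b.natAbs), eventually_ge_atTop (b.natAbs + c'.natAbs +
      ⌈((c' - b : ℤ) : ℝ) / min (1/2) u⌉₊)] with M hM hM2 hM3
    have hM4 : (0:ℝ) < ((b - -(M : ℤ) + 1 + (c' - b) : ℤ) : ℝ) := by
      exact_mod_cast (by omega : (0:ℤ) < b - -(M : ℤ) + 1 + (c' - b))
    refine ⟨by omega, ?_, by positivity⟩
    rw [div_le_iff₀ hM4]
    have hM5 : ((⌈((c' - b : ℤ) : ℝ) / min (1/2) u⌉₊ : ℕ) : ℝ) ≤
        ((b - -(M : ℤ) + 1 + (c' - b) : ℤ) : ℝ) := by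
      have : ((⌈((c' - b : ℤ) : ℝ) / min (1/2) u⌉₊ : ℕ) : ℤ) ≤ b - -(M : ℤ) + 1 + (c' - b) := by
        omega
      exact_mod_cast this
    have hM6 : ((c' - b : ℤ) : ℝ) / min (1/2) u ≤ ((b - -(M : ℤ) + 1 + (c' - b) : ℤ) : ℝ) :=
      le_trans (Nat.le_ceil _) hM5
    rw [div_le_iff₀ hmin] at hM6
    linarith
  refine ⟨ge_of_tendsto ht ?_, le_of_tendsto ht ?_, ge_of_tendsto ht' ?_,
    le_of_tendsto ht' ?_⟩
  · filter_upwards [hev] with M hM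
    obtain ⟨h1, h2, h3⟩ := hM
    refine le_trans ?_ (H (-(M : ℤ)) b c' d h1 hbc hcd _ u rfl hu).1
    have h4 := le_trans h2 (min_le_left _ _)
    have h5 : (1 - u) / 2 ≤
        (1 - ((c' - b : ℤ) : ℝ) / ((b - -(M : ℤ) + 1 + (c' - b) : ℤ) : ℝ)) * (1 - u) := by
      nlinarith
    calc 1 / 2 * c * (1 - u) ^ ((1 : ℝ) / 3) = c * (1 / 2 * (1 - u) ^ ((1 : ℝ) / 3)) := by ring
      _ ≤ c * ((1 - u) / 2) ^ ((1 : ℝ) / 3) :=
          mul_le_mul_of_nonneg_left (half_rpow hu2) hc.le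
      _ ≤ _ := mul_le_mul_of_nonneg_left
          (Real.rpow_le_rpow (by positivity) h5 (by norm_num)) hc.le
  · filter_upwards [hev] with M hM
    obtain ⟨h1, h2, h3⟩ := hM
    refine le_trans (H (-(M : ℤ)) b c' d h1 hbc hcd _ u rfl hu).2.1 ?_
    have h4 := le_trans h2 (min_le_left _ _)
    refine mul_le_mul_of_nonneg_left (Real.rpow_le_rpow ?_ ?_ (by norm_num)) hC.le
    · exact mul_nonneg (by linarith) hu2
    · nlinarith
  · filter_upwards [hev] with M hM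
    obtain ⟨h1, h2, h3⟩ := hM
    refine le_trans ?_ (H (-(M : ℤ)) b c' d h1 hbc hcd _ u rfl hu).2.2.2.1
    have : 0 ≤ u ^ ((1 : ℝ) / 3) := Real.rpow_nonneg hu0.le _
    nlinarith
  · filter_upwards [hev] with M hM
    obtain ⟨h1, h2, h3⟩ := hM
    refine le_trans (H (-(M : ℤ)) b c' d h1 hbc hcd _ u rfl hu).2.2.2.2 ?_
    have h4 := le_trans h2 (min_le_right _ _)
    rw [max_eq_right h4]

/-- **Cardy's formula up to constants**. -/
theorem cardy_half_plane : ∃ c C : ℝ, 0 < c ∧ 0 < C ∧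
    (∀ a b c' d : ℤ, a ≤ b → b < c' → c' ≤ d →
      c * cardyF (crossRatio (a - 1) b c' (d + 1)) ≤ crossProb (Set.Icc a b) (Set.Icc c' d) ∧
      crossProb (Set.Icc a b) (Set.Icc c' d) ≤ C * cardyF (crossRatio (a - 1) b c' (d + 1)) ∧
      c * (1 - cardyF (crossRatio (a - 1) b c' (d + 1))) ≤
        1 - crossProb (Set.Icc a b) (Set.Icc c' d) ∧
      1 - crossProb (Set.Icc a b) (Set.Icc c' d) ≤
        C * (1 - cardyF (crossRatio (a - 1) b c' (d + 1)))) ∧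
    (∀ b c' d : ℤ, b < c' → c' ≤ d →
      c * cardyF ((d + 1 - c') / (d + 1 - b)) ≤ crossProb (Set.Iic b) (Set.Icc c' d) ∧
      crossProb (Set.Iic b) (Set.Icc c' d) ≤ C * cardyF ((d + 1 - c') / (d + 1 - b)) ∧
      c * (1 - cardyF ((d + 1 - c') / (d + 1 - b))) ≤
        1 - crossProb (Set.Iic b) (Set.Icc c' d) ∧
      1 - crossProb (Set.Iic b) (Set.Icc c' d) ≤
        C * (1 - cardyF ((d + 1 - c') / (d + 1 - b)))) := by
  obtain ⟨c1, C1, hc1, hC1, H1⟩ := half_bounds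
  obtain ⟨c2, C2, hc2, hC2, H2⟩ := half_bounds_Iic
  obtain ⟨ck, Ck, hck, hCk, HK⟩ := cardyF_bounds
  refine ⟨min (c1 / (2 * Ck)) (c2 / (2 * Ck)), max (C1 / ck) (C2 / ck),
    lt_min (by positivity) (by positivity), lt_max_of_lt_left (by positivity), ?_, ?_⟩
  · intro a b c' d hab hbc hcd
    have hα : (1 : ℝ) ≤ (b : ℝ) - a + 1 := by exact_mod_cast (by omega : (1:ℤ) ≤ b - a + 1)
    have hβ : (1 : ℝ) ≤ (c' : ℝ) - b := by exact_mod_cast (by omega : (1:ℤ) ≤ c' - b)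
    have hγ : (1 : ℝ) ≤ (d : ℝ) - c' + 1 := by exact_mod_cast (by omega : (1:ℤ) ≤ d - c' + 1)
    obtain ⟨s, hs⟩ : ∃ s : ℝ, s = ((c' - b : ℤ) : ℝ) / ((b - a + 1 + (c' - b) : ℤ) : ℝ) := ⟨_, rfl⟩
    obtain ⟨u, hu⟩ : ∃ u : ℝ, u = ((c' - b : ℤ) : ℝ) / ((c' - b + (d - c' + 1) : ℤ) : ℝ) :=
      ⟨_, rfl⟩
    obtain ⟨g1, g2, g3, g4, g5⟩ := H1 a b c' d hab hbc hcd s u hs hu
    push_cast at hs hu
    have hs' : s = ((c' : ℝ) - b) / ((c' : ℝ) - a + 1) := by rw [hs]; congr 1; ring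
    have hu' : u = ((c' : ℝ) - b) / ((d : ℝ) - b + 1) := by rw [hu]; congr 1; ring
    have hA : (0:ℝ) < (c' : ℝ) - a + 1 := by linarith
    have hB : (0:ℝ) < (d : ℝ) - b + 1 := by linarith
    have hs0 : 0 < s := by rw [hs']; positivity
    have hu0 : 0 < u := by rw [hu']; positivity
    have hs1 : s < 1 := by rw [hs', div_lt_one hA]; linarith
    have hu1 : u < 1 := by rw [hu', div_lt_one hB]; linarith
    have hη : crossRatio (a - 1) b c' (d + 1) = (1 - s) * (1 - u) := by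
      unfold crossRatio
      have k1 : (c' : ℝ) - (a - 1) = (c' : ℝ) - a + 1 := by ring
      have k2 : (d : ℝ) + 1 - b = (d : ℝ) - b + 1 := by ring
      rw [k1, k2, hs', hu']
      field_simp
      ring
    rw [hη]
    have hη0 : 0 < (1 - s) * (1 - u) := mul_pos (by linarith) (by linarith)
    have hη1 : (1 - s) * (1 - u) < 1 := by nlinarith
    obtain ⟨k1, k2, k3, k4⟩ := HK _ hη0 hη1
    have hp : 0 ≤ ((1 - s) * (1 - u)) ^ ((1 : ℝ) / 3) := Real.rpow_nonneg hη0.le _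
    have hq : 0 ≤ (1 - (1 - s) * (1 - u)) ^ ((1 : ℝ) / 3) := Real.rpow_nonneg (by linarith) _
    have hmx : 0 ≤ max s u := le_trans hs0.le (le_max_left _ _)
    have hmax1 : max s u ≤ 1 - (1 - s) * (1 - u) := by
      apply max_le <;> nlinarith
    have hmax2 : (1 - (1 - s) * (1 - u)) / 2 ≤ max s u := by
      have := le_max_left s u
      have := le_max_right s u
      nlinarith
    have hF0 : 0 ≤ cardyF ((1 - s) * (1 - u)) := le_trans (by positivity) k1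
    have hF1 : 0 ≤ 1 - cardyF ((1 - s) * (1 - u)) := le_trans (by positivity) k3
    have hm1 : c1 * (max s u) ^ ((1 : ℝ) / 3) ≤
        1 - crossProb (Set.Icc a b) (Set.Icc c' d) := by
      rcases max_choice s u with h | h <;> rw [h] <;> assumption
    have hlow : min (c1 / (2 * Ck)) (c2 / (2 * Ck)) ≤ c1 / (2 * Ck) := min_le_left _ _
    have hup : C1 / ck ≤ max (C1 / ck) (C2 / ck) := le_max_left _ _
    refine ⟨?_, ?_, ?_, ?_⟩
    · calc _ ≤ c1 / (2 * Ck) * cardyF ((1 - s) * (1 - u)) :=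
            mul_le_mul_of_nonneg_right hlow hF0
        _ ≤ c1 / (2 * Ck) * (Ck * ((1 - s) * (1 - u)) ^ ((1 : ℝ) / 3)) :=
            mul_le_mul_of_nonneg_left k2 (by positivity)
        _ = 1 / 2 * (c1 * ((1 - s) * (1 - u)) ^ ((1 : ℝ) / 3)) := by field_simp
        _ ≤ _ := by
            have : 0 ≤ c1 * ((1 - s) * (1 - u)) ^ ((1 : ℝ) / 3) := by positivity
            linarith
    · calc _ ≤ C1 * ((1 - s) * (1 - u)) ^ ((1 : ℝ) / 3) := g2
        _ = C1 / ck * (ck * ((1 - s) * (1 - u)) ^ ((1 : ℝ) / 3)) := by field_simp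
        _ ≤ C1 / ck * cardyF ((1 - s) * (1 - u)) :=
            mul_le_mul_of_nonneg_left k1 (by positivity)
        _ ≤ _ := mul_le_mul_of_nonneg_right hup hF0
    · calc _ ≤ c1 / (2 * Ck) * (1 - cardyF ((1 - s) * (1 - u))) :=
            mul_le_mul_of_nonneg_right hlow hF1
        _ ≤ c1 / (2 * Ck) * (Ck * (1 - (1 - s) * (1 - u)) ^ ((1 : ℝ) / 3)) :=
            mul_le_mul_of_nonneg_left k4 (by positivity)
        _ = c1 * (1 / 2 * (1 - (1 - s) * (1 - u)) ^ ((1 : ℝ) / 3)) := by field_simp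
        _ ≤ c1 * ((1 - (1 - s) * (1 - u)) / 2) ^ ((1 : ℝ) / 3) :=
            mul_le_mul_of_nonneg_left (half_rpow (by linarith)) hc1.le
        _ ≤ c1 * (max s u) ^ ((1 : ℝ) / 3) := mul_le_mul_of_nonneg_left
            (Real.rpow_le_rpow (by linarith) hmax2 (by norm_num)) hc1.le
        _ ≤ _ := hm1
    · calc _ ≤ C1 * (max s u) ^ ((1 : ℝ) / 3) := g5
        _ ≤ C1 * (1 - (1 - s) * (1 - u)) ^ ((1 : ℝ) / 3) :=
            mul_le_mul_of_nonneg_left (Real.rpow_le_rpow hmx hmax1 (by norm_num)) hC1.le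
        _ = C1 / ck * (ck * (1 - (1 - s) * (1 - u)) ^ ((1 : ℝ) / 3)) := by field_simp
        _ ≤ C1 / ck * (1 - cardyF ((1 - s) * (1 - u))) :=
            mul_le_mul_of_nonneg_left k3 (by positivity)
        _ ≤ _ := mul_le_mul_of_nonneg_right hup hF1
  · intro b c' d hbc hcd
    have hβ : (1 : ℝ) ≤ (c' : ℝ) - b := by exact_mod_cast (by omega : (1:ℤ) ≤ c' - b)
    have hγ : (1 : ℝ) ≤ (d : ℝ) - c' + 1 := by exact_mod_cast (by omega : (1:ℤ) ≤ d - c' + 1)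
    obtain ⟨u, hu⟩ : ∃ u : ℝ, u = ((c' - b : ℤ) : ℝ) / ((c' - b + (d - c' + 1) : ℤ) : ℝ) :=
      ⟨_, rfl⟩
    obtain ⟨g1, g2, g3, g4⟩ := H2 b c' d hbc hcd u hu
    push_cast at hu
    have hu' : u = ((c' : ℝ) - b) / ((d : ℝ) + 1 - b) := by rw [hu]; congr 1; ring
    have hB : (0:ℝ) < (d : ℝ) + 1 - b := by linarith
    have hu0 : 0 < u := by rw [hu']; positivity
    have hu1 : u < 1 := by rw [hu', div_lt_one hB]; linarith
    have hη : ((d : ℝ) + 1 - c') / (d + 1 - b) = 1 - u := by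
      rw [hu']
      field_simp
      ring
    rw [hη]
    have hη0 : 0 < 1 - u := by linarith
    have hη1 : 1 - u < 1 := by linarith
    obtain ⟨k1, k2, k3, k4⟩ := HK _ hη0 hη1
    have e : 1 - (1 - u) = u := by ring
    rw [e] at k3 k4
    have hp : 0 ≤ (1 - u) ^ ((1 : ℝ) / 3) := Real.rpow_nonneg hη0.le _
    have hq : 0 ≤ u ^ ((1 : ℝ) / 3) := Real.rpow_nonneg hu0.le _
    have hF0 : 0 ≤ cardyF (1 - u) := le_trans (by positivity) k1
    have hF1 : 0 ≤ 1 - cardyF (1 - u) := le_trans (by positivity) k3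
    have hlow : min (c1 / (2 * Ck)) (c2 / (2 * Ck)) ≤ c2 / (2 * Ck) := min_le_right _ _
    have hup : C2 / ck ≤ max (C1 / ck) (C2 / ck) := le_max_right _ _
    refine ⟨?_, ?_, ?_, ?_⟩
    · calc _ ≤ c2 / (2 * Ck) * cardyF (1 - u) := mul_le_mul_of_nonneg_right hlow hF0
        _ ≤ c2 / (2 * Ck) * (Ck * (1 - u) ^ ((1 : ℝ) / 3)) :=
            mul_le_mul_of_nonneg_left k2 (by positivity)
        _ = 1 / 2 * (c2 * (1 - u) ^ ((1 : ℝ) / 3)) := by field_simp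
        _ ≤ _ := by
            have : 0 ≤ c2 * (1 - u) ^ ((1 : ℝ) / 3) := by positivity
            linarith
    · calc _ ≤ C2 * (1 - u) ^ ((1 : ℝ) / 3) := g2
        _ = C2 / ck * (ck * (1 - u) ^ ((1 : ℝ) / 3)) := by field_simp
        _ ≤ C2 / ck * cardyF (1 - u) := mul_le_mul_of_nonneg_left k1 (by positivity)
        _ ≤ _ := mul_le_mul_of_nonneg_right hup hF0
    · calc _ ≤ c2 / (2 * Ck) * (1 - cardyF (1 - u)) := mul_le_mul_of_nonneg_right hlow hF1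
        _ ≤ c2 / (2 * Ck) * (Ck * u ^ ((1 : ℝ) / 3)) :=
            mul_le_mul_of_nonneg_left k4 (by positivity)
        _ = 1 / 2 * (c2 * u ^ ((1 : ℝ) / 3)) := by field_simp
        _ ≤ _ := by
            have : 0 ≤ c2 * u ^ ((1 : ℝ) / 3) := by positivity
            linarith
    · calc _ ≤ C2 * u ^ ((1 : ℝ) / 3) := g4
        _ = C2 / ck * (ck * u ^ ((1 : ℝ) / 3)) := by field_simp
        _ ≤ C2 / ck * (1 - cardyF (1 - u)) := mul_le_mul_of_nonneg_left k3 (by positivity)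
        _ ≤ _ := mul_le_mul_of_nonneg_right hup hF1

end H731C
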