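import Pool.Agent.H731R3.Cardy.Defs
import Pool.Agent.H731R3.Cardy.Cross

/-!
Lower bound for the probability that two boundary intervals are connected.
-/

namespace H731C

open H974 Finset

theorem XC_to_CN {a b c d a1 d1 A B t D : ℤ} {F : Finset Edg} (ha : a ≤ a1) (hd : d1 ≤ d)
    (h : XC a1 b c d1 A B t D F) : CN a b c d A B t D F := by
  obtain ⟨x, y, h1, h2, h3⟩ := h
  refine ⟨x, y, by omega, by omega, h3.mono ?_⟩
  exact Set.inter_subset_inter_right _ (by exact_mod_cast VE_subset_RE)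

theorem ratio_le {α β α1 : ℝ} (hα : 0 < α) (hβ : 0 < β) (h1 : α1 = min α β) :
    α / (α + β) ≤ α1 / β := by
  rw [div_le_div_iff₀ (by linarith) hβ, h1]
  rcases le_total α β with h | h
  · rw [min_eq_left h]; nlinarith
  · rw [min_eq_right h]; nlinarith

theorem CN_lower : ∃ c : ℝ, 0 < c ∧ ∀ a b c' d : ℤ, a ≤ b → b < c' → c' ≤ d →
    ∃ N0 : ℤ, ∀ N : ℤ, N0 ≤ N →
      c * ((((b - a + 1 : ℤ) : ℝ) / ((b - a + 1 + (c' - b) : ℤ) : ℝ)) *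
        (((d - c' + 1 : ℤ) : ℝ) / ((c' - b + (d - c' + 1) : ℤ) : ℝ))) ^ ((1 : ℝ) / 3) ≤
      P2 (RE (-N) N 0 N) (CN a b c' d (-N) N 0 N) := by
  obtain ⟨c, hc, hX⟩ := XC_lower
  refine ⟨c * (1 / 9 : ℝ) ^ ((1 : ℝ) / 3), by positivity, ?_⟩
  intro a b c' d hab hbc hcd
  obtain ⟨α, hα⟩ : ∃ α : ℤ, α = b - a + 1 := ⟨_, rfl⟩
  obtain ⟨β, hβ⟩ : ∃ β : ℤ, β = c' - b := ⟨_, rfl⟩
  obtain ⟨γ, hγ⟩ : ∃ γ : ℤ, γ = d - c' + 1 := ⟨_, rfl⟩
  obtain ⟨α1, hα1⟩ : ∃ α1 : ℤ, α1 = min α β := ⟨_, rfl⟩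
  obtain ⟨γ1, hγ1⟩ : ∃ γ1 : ℤ, γ1 = min γ β := ⟨_, rfl⟩
  refine ⟨|b| + 40 * β + 40, fun N hN => ?_⟩
  have hb1 := neg_abs_le b
  have hb2 := le_abs_self b
  have hpα : 1 ≤ α := by omega
  have hpβ : 1 ≤ β := by omega
  have hpγ : 1 ≤ γ := by omega
  have h := hX (b - α1 + 1) b c' (c' + γ1 - 1) 0 (-N) N N (by omega) hbc (by omega) (by omega)
    (by omega) (by omega) (RE (-N) N 0 N) VE_subset_RE
  have hmono : P2 (RE (-N) N 0 N) (XC (b - α1 + 1) b c' (c' + γ1 - 1) (-N) N 0 N) ≤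
      P2 (RE (-N) N 0 N) (CN a b c' d (-N) N 0 N) :=
    Pr_mono okhalf2 (fun F _ hF => XC_to_CN (by omega) (by omega) hF)
  refine le_trans ?_ (h.trans hmono)
  have e1 : b - (b - α1 + 1) + 1 = α1 := by ring
  have e2 : c' + γ1 - 1 - c' + 1 = γ1 := by ring
  have e3 : c' + γ1 - 1 - (b - α1 + 1) + 1 = α1 + β + γ1 - 1 := by rw [hβ]; ring
  rw [e1, e2, e3, ← hα, ← hβ, ← hγ, mul_assoc]
  refine mul_le_mul_of_nonneg_left ?_ hc.le
  have rα : (0:ℝ) < α := by exact_mod_cast (by omega : 0 < α)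
  have rβ : (0:ℝ) < β := by exact_mod_cast (by omega : 0 < β)
  have rγ : (0:ℝ) < γ := by exact_mod_cast (by omega : 0 < γ)
  have rα1 : (0:ℝ) < α1 := by exact_mod_cast (by omega : 0 < α1)
  have rγ1 : (0:ℝ) < γ1 := by exact_mod_cast (by omega : 0 < γ1)
  have q1 := ratio_le rα rβ (α1 := α1) (by rw [hα1]; push_cast; rfl)
  have q2 := ratio_le rγ rβ (α1 := γ1) (by rw [hγ1]; push_cast; rfl)
  rw [← Real.mul_rpow (by norm_num) (by push_cast; positivity)]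
  apply Real.rpow_le_rpow (by push_cast; positivity) _ (by norm_num)
  have hL : (((α1 + β + γ1 - 1 : ℤ) : ℝ)) ≤ 3 * β := by
    exact_mod_cast (by omega : α1 + β + γ1 - 1 ≤ 3 * β)
  have hL0 : (0:ℝ) < ((α1 + β + γ1 - 1 : ℤ) : ℝ) := by
    exact_mod_cast (by omega : 0 < α1 + β + γ1 - 1)
  calc 1 / 9 * ((α : ℝ) / ((α + β : ℤ) : ℝ) * ((γ : ℝ) / ((β + γ : ℤ) : ℝ)))
      ≤ 1 / 9 * ((α1 : ℝ) / β * ((γ1 : ℝ) / β)) := by
        refine mul_le_mul_of_nonneg_left ?_ (by norm_num)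
        push_cast
        rw [add_comm (β : ℝ) γ]
        exact mul_le_mul q1 q2 (by positivity) (by positivity)
    _ = (α1 : ℝ) * γ1 / (3 * β) ^ 2 := by field_simp; norm_num
    _ ≤ (α1 : ℝ) * γ1 / ((α1 + β + γ1 - 1 : ℤ) : ℝ) ^ 2 := by
        apply div_le_div_of_nonneg_left (by positivity) (by positivity)
        exact pow_le_pow_left₀ hL0.le hL 2

end H731C
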