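import Pool.Agent.H731R3.Cardy.Defs
import Pool.Agent.H731R3.Cardy.HalfBox

/-!
Task F: upper bound for the crossing probability.
-/

namespace H731C

open H974 Finset

theorem F_arm {A B D z t m n : ℤ} {F : Finset Edg} {u v : Vtx} (hmn : m ≤ n)
    (hA : A ≤ z - n) (hB : z + n ≤ B) (hD : t + n ≤ D)
    (hu : inR (z - m) (z + m) t (t + m) u) (hv : v.1 ≤ z - n ∨ z + n ≤ v.1)
    (h : Reach (↑F ∩ ↑(RE A B t D)) u v) :
    HA z t m n (F ∩ RE (z - n) (z + n) t (t + n)) := by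
  obtain ⟨⟨hu1, hu2⟩, hu3, hu4⟩ := hu
  obtain ⟨w, hw1, hw2, hw3⟩ := first_exit (G := ↑F ∩ ↑(RE A B t D)) (a := z - n) (b := z + n)
    (c := t - 1) (d := t + n) (u := u) (v := v) ⟨⟨by omega, by omega⟩, by omega, by omega⟩ h
    (by rcases hv with hv | hv
        · exact Or.inl hv
        · exact Or.inr (Or.inl hv))
  have hin : inR A B t D w := by
    apply reach_inR (G := ↑F ∩ ↑(RE (z - n) (z + n) (t - 1) (t + n))) (u := u)
      ⟨⟨by omega, by omega⟩, by omega, by omega⟩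
    refine Reach.mono ?_ hw3
    rintro e ⟨⟨h1, h2⟩, h3⟩
    exact ⟨⟨h1, h3⟩, h2⟩
  obtain ⟨⟨hi1, hi2⟩, hi3, hi4⟩ := hin
  refine ⟨u, w, ⟨⟨hu1, hu2⟩, hu3, hu4⟩, ?_, ?_⟩
  · unfold onH
    rcases hw2 with h1 | h1 | h1 | h1
    · exact Or.inl h1
    · exact Or.inr (Or.inl h1)
    · omega
    · exact Or.inr (Or.inr h1)
  · refine Reach.mono ?_ hw3
    rintro ⟨x, y, o⟩ ⟨⟨h1, h2⟩, h3⟩
    have h4 : ((x, y, o) : Edg) ∈ RE (z - n) (z + n) t (t + n) := by
      rw [Finset.mem_coe] at h2 h3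
      cases o
      · rw [mem_RE_false] at h2 h3 ⊢
        omega
      · rw [mem_RE_true] at h2 h3 ⊢
        omega
    refine ⟨?_, h4⟩
    rw [Finset.coe_inter]
    exact ⟨h1, h4⟩

/-- independence of the two arms -/
theorem CN_upper_mul {a b c d A B t D n : ℤ} (hn : 1 ≤ n) (hab : a ≤ b) (hcd : c ≤ d)
    (h2n : 2 * n < c - b) (hA : A ≤ b - n) (hB : c + n ≤ B) (hD : t + n ≤ D)
    (hα : b - a + 1 ≤ n) (hγ : d - c + 1 ≤ n) :
    P2 (RE A B t D) (CN a b c d A B t D) ≤
      P2 (RE A B t D) (HA b t (b - a + 1) n) * P2 (RE A B t D) (HA c t (d - c + 1) n) := by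
  have hS : RE (b - n) (b + n) t (t + n) ⊆ RE A B t D :=
    RE_subset (by omega) (by omega) (by omega) (by omega)
  have hT : RE (c - n) (c + n) t (t + n) ⊆ RE A B t D :=
    RE_subset (by omega) (by omega) (by omega) (by omega)
  have hdis : Disjoint (RE (b - n) (b + n) t (t + n)) (RE (c - n) (c + n) t (t + n)) := by
    rw [Finset.disjoint_left]
    rintro ⟨x, y, o⟩ h1 h2
    cases o
    · rw [mem_RE_false] at h1 h2
      omega
    · rw [mem_RE_true] at h1 h2
      omega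
  calc P2 (RE A B t D) (CN a b c d A B t D)
      ≤ P2 (RE A B t D) (fun F => HA b t (b - a + 1) n (F ∩ RE (b - n) (b + n) t (t + n)) ∧
          HA c t (d - c + 1) n (F ∩ RE (c - n) (c + n) t (t + n))) := by
        apply Pr_mono okhalf2
        rintro F _ ⟨x, y, hx, hy, h⟩
        constructor
        · exact F_arm (u := (x, t)) (v := (y, t)) hα (by omega) (by omega) (by omega)
            ⟨⟨by dsimp only; omega, by dsimp only; omega⟩, by dsimp only; omega,
              by dsimp only; omega⟩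
            (Or.inr (by dsimp only; omega)) h
        · exact F_arm (u := (y, t)) (v := (x, t)) hγ (by omega) (by omega) (by omega)
            ⟨⟨by dsimp only; omega, by dsimp only; omega⟩, by dsimp only; omega,
              by dsimp only; omega⟩
            (Or.inl (by dsimp only; omega)) h.symm
    _ = P2 (RE (b - n) (b + n) t (t + n)) (HA b t (b - a + 1) n) *
        P2 (RE (c - n) (c + n) t (t + n)) (HA c t (d - c + 1) n) := P2_indep hS hT hdis _ _
    _ ≤ _ := by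
        apply mul_le_mul
        · exact Pr_mono_set okhalf2 hS (HA_incr _ _ _ _ _)
        · exact Pr_mono_set okhalf2 hT (HA_incr _ _ _ _ _)
        · exact Pr_nonneg okhalf2 _ _
        · exact Pr_nonneg okhalf2 _ _

/-- one arm only -/
theorem F_one_left {a b c d A B t D n : ℤ} (hn : 1 ≤ n) (hab : a ≤ b)
    (h2n : 2 * n < c - b) (hA : A ≤ b - n) (hB : c + n ≤ B) (hD : t + n ≤ D)
    (hα : b - a + 1 ≤ n) :
    P2 (RE A B t D) (CN a b c d A B t D) ≤ P2 (RE A B t D) (HA b t (b - a + 1) n) := by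
  apply Pr_mono okhalf2
  rintro F hF ⟨x, y, hx, hy, h⟩
  have h1 := F_arm (z := b) (m := b - a + 1) (n := n) (u := (x, t)) (v := (y, t)) hα
    (by omega) (by omega) (by omega)
    ⟨⟨by dsimp only; omega, by dsimp only; omega⟩, by dsimp only; omega,
      by dsimp only; omega⟩
    (Or.inr (by dsimp only; omega)) h
  exact HA_incr (RE A B t D) b t (b - a + 1) n _ _ Finset.inter_subset_left hF h1

theorem F_one_right {a b c d A B t D n : ℤ} (hn : 1 ≤ n) (hcd : c ≤ d)
    (h2n : 2 * n < c - b) (hA : A ≤ b - n) (hB : c + n ≤ B) (hD : t + n ≤ D)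
    (hγ : d - c + 1 ≤ n) :
    P2 (RE A B t D) (CN a b c d A B t D) ≤ P2 (RE A B t D) (HA c t (d - c + 1) n) := by
  apply Pr_mono okhalf2
  rintro F hF ⟨x, y, hx, hy, h⟩
  have h1 := F_arm (z := c) (m := d - c + 1) (n := n) (u := (y, t)) (v := (x, t)) hγ
    (by omega) (by omega) (by omega)
    ⟨⟨by dsimp only; omega, by dsimp only; omega⟩, by dsimp only; omega,
      by dsimp only; omega⟩
    (Or.inl (by dsimp only; omega)) h.symm
  exact HA_incr (RE A B t D) c t (d - c + 1) n _ _ Finset.inter_subset_left hF h1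

theorem F_cube_le {x K : ℝ} (hx : 0 ≤ x) (hK : 1 ≤ K) :
    (K * x) ^ ((1 : ℝ) / 3) ≤ K * x ^ ((1 : ℝ) / 3) := by
  rw [Real.mul_rpow (by linarith) hx]
  have h1 : K ^ ((1 : ℝ) / 3) ≤ K := by
    calc K ^ ((1 : ℝ) / 3) ≤ K ^ (1 : ℝ) := Real.rpow_le_rpow_of_exponent_le hK (by norm_num)
      _ = K := Real.rpow_one K
  exact mul_le_mul_of_nonneg_right h1 (by positivity)

theorem CN_upper : ∃ C : ℝ, 0 < C ∧ ∀ a b c d A B t D : ℤ, a ≤ b → b < c → c ≤ d →
    A ≤ a - (c - b) → d + (c - b) ≤ B → t + (c - b) ≤ D →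
    P2 (RE A B t D) (CN a b c d A B t D) ≤
      C * ((((b - a + 1 : ℤ) : ℝ) / ((b - a + 1 + (c - b) : ℤ) : ℝ)) *
        (((d - c + 1 : ℤ) : ℝ) / ((c - b + (d - c + 1) : ℤ) : ℝ))) ^ ((1 : ℝ) / 3) := by
  obtain ⟨C0, hC0, hup⟩ := HA_upper
  refine ⟨25 + 40 * C0 + 64 * C0 ^ 2, by positivity, ?_⟩
  intro a b c d A B t D hab hbc hcd hA hB hD
  set α : ℤ := b - a + 1 with hα
  set β : ℤ := c - b with hβ
  set γ : ℤ := d - c + 1 with hγ
  have ha1 : (1 : ℝ) ≤ (α : ℝ) := by exact_mod_cast (by omega : (1 : ℤ) ≤ α)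
  have hb1 : (1 : ℝ) ≤ (β : ℝ) := by exact_mod_cast (by omega : (1 : ℤ) ≤ β)
  have hc1 : (1 : ℝ) ≤ (γ : ℝ) := by exact_mod_cast (by omega : (1 : ℤ) ≤ γ)
  push_cast
  set s : ℝ := (α : ℝ) / ((α : ℝ) + (β : ℝ)) with hs
  set u : ℝ := (γ : ℝ) / ((β : ℝ) + (γ : ℝ)) with hu
  have hs0 : 0 ≤ s := by positivity
  have hu0 : 0 ≤ u := by positivity
  set X : ℝ := (s * u) ^ ((1 : ℝ) / 3) with hX
  have hX0 : 0 ≤ X := by positivity
  have hP1 : P2 (RE A B t D) (CN a b c d A B t D) ≤ 1 := Pr_le_one okhalf2 _ _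
  -- the trivial bound
  have htriv : 1 / 5 ≤ s → 1 / 5 ≤ u →
      P2 (RE A B t D) (CN a b c d A B t D) ≤ (25 + 40 * C0 + 64 * C0 ^ 2) * X := by
    intro h1 h2
    have h3 : (1 : ℝ) ≤ 25 * (s * u) := by nlinarith
    have h4 : (1 : ℝ) ≤ (25 * (s * u)) ^ ((1 : ℝ) / 3) := Real.one_le_rpow h3 (by norm_num)
    have h5 := F_cube_le (x := s * u) (K := 25) (by positivity) (by norm_num)
    have h6 : 0 ≤ (40 * C0 + 64 * C0 ^ 2) * X := by positivity
    calc P2 (RE A B t D) (CN a b c d A B t D) ≤ 1 := hP1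
      _ ≤ 25 * X := h4.trans h5
      _ ≤ (25 + 40 * C0 + 64 * C0 ^ 2) * X := by linarith
  by_cases hβ3 : β ≤ 2
  · have hb2 : (β : ℝ) ≤ 2 := by exact_mod_cast hβ3
    apply htriv
    · rw [hs, le_div_iff₀ (by positivity)]
      linarith
    · rw [hu, le_div_iff₀ (by positivity)]
      linarith
  obtain ⟨n, hn1, hn2, hn4⟩ : ∃ n : ℤ, 1 ≤ n ∧ 2 * n < β ∧ β ≤ 4 * n :=
    ⟨(β - 1) / 2, by omega, by omega, by omega⟩
  have hn1' : (1 : ℝ) ≤ (n : ℝ) := by exact_mod_cast hn1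
  have hn2' : 2 * (n : ℝ) < (β : ℝ) := by exact_mod_cast hn2
  have hn4' : (β : ℝ) ≤ 4 * (n : ℝ) := by exact_mod_cast hn4
  have hsub1 : RE (b - n) (b + n) t (t + n) ⊆ RE A B t D :=
    RE_subset (by omega) (by omega) (by omega) (by omega)
  have hsub2 : RE (c - n) (c + n) t (t + n) ⊆ RE A B t D :=
    RE_subset (by omega) (by omega) (by omega) (by omega)
  have hαn : α ≤ n → ((α : ℝ) / n) ≤ 8 * s := by
    intro h
    have h' : (α : ℝ) ≤ n := by exact_mod_cast h
    rw [hs, div_le_iff₀ (by positivity)]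
    have : 8 * ((α : ℝ) / ((α : ℝ) + (β : ℝ))) * n = (α : ℝ) * (8 * n / ((α : ℝ) + (β : ℝ))) := by
      ring
    rw [this]
    have h2 : (1 : ℝ) ≤ 8 * n / ((α : ℝ) + (β : ℝ)) := by
      rw [le_div_iff₀ (by positivity)]
      linarith
    calc (α : ℝ) = α * 1 := by ring
      _ ≤ _ := by gcongr
  have hγn : γ ≤ n → ((γ : ℝ) / n) ≤ 8 * u := by
    intro h
    have h' : (γ : ℝ) ≤ n := by exact_mod_cast h
    rw [hu, div_le_iff₀ (by positivity)]
    have : 8 * ((γ : ℝ) / ((β : ℝ) + (γ : ℝ))) * n = (γ : ℝ) * (8 * n / ((β : ℝ) + (γ : ℝ))) := by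
      ring
    rw [this]
    have h2 : (1 : ℝ) ≤ 8 * n / ((β : ℝ) + (γ : ℝ)) := by
      rw [le_div_iff₀ (by positivity)]
      linarith
    calc (γ : ℝ) = γ * 1 := by ring
      _ ≤ _ := by gcongr
  have hs5 : n < α → 1 / 5 ≤ s := by
    intro h
    have h' : (n : ℝ) < α := by exact_mod_cast h
    rw [hs, le_div_iff₀ (by positivity)]
    linarith
  have hu5 : n < γ → 1 / 5 ≤ u := by
    intro h
    have h' : (n : ℝ) < γ := by exact_mod_cast h
    rw [hu, le_div_iff₀ (by positivity)]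
    linarith
  rcases le_or_gt α n with h1 | h1 <;> rcases le_or_gt γ n with h2 | h2
  · have h3 := CN_upper_mul (a := a) (b := b) (c := c) (d := d) (A := A) (B := B) (t := t) (D := D)
      hn1 hab hcd (by omega) (by omega) (by omega) (by omega) h1 h2
    have h4 := hup b t α n (by omega) h1 _ hsub1
    have h5 := hup c t γ n (by omega) h2 _ hsub2
    calc P2 (RE A B t D) (CN a b c d A B t D) ≤ _ := h3
      _ ≤ (C0 * ((α : ℝ) / n) ^ ((1 : ℝ) / 3)) * (C0 * ((γ : ℝ) / n) ^ ((1 : ℝ) / 3)) := by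
        apply mul_le_mul h4 h5 (Pr_nonneg okhalf2 _ _) (by positivity)
      _ = C0 ^ 2 * (((α : ℝ) / n) * ((γ : ℝ) / n)) ^ ((1 : ℝ) / 3) := by
        rw [Real.mul_rpow (by positivity) (by positivity)]
        ring
      _ ≤ C0 ^ 2 * (64 * (s * u)) ^ ((1 : ℝ) / 3) := by
        have h6 : ((α : ℝ) / n) * ((γ : ℝ) / n) ≤ 64 * (s * u) := by
          calc ((α : ℝ) / n) * ((γ : ℝ) / n) ≤ (8 * s) * (8 * u) :=
                mul_le_mul (hαn h1) (hγn h2) (by positivity) (by positivity)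
            _ = 64 * (s * u) := by ring
        have h7 := Real.rpow_le_rpow (by positivity) h6 (by norm_num : (0 : ℝ) ≤ (1 : ℝ) / 3)
        exact mul_le_mul_of_nonneg_left h7 (by positivity)
      _ ≤ C0 ^ 2 * (64 * X) := by
        have := F_cube_le (x := s * u) (K := 64) (by positivity) (by norm_num)
        exact mul_le_mul_of_nonneg_left this (by positivity)
      _ ≤ (25 + 40 * C0 + 64 * C0 ^ 2) * X := by
        have : 0 ≤ (25 + 40 * C0) * X := by positivity
        linarith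
  · have h3 := F_one_left (a := a) (b := b) (c := c) (d := d) (A := A) (B := B) (t := t) (D := D)
      hn1 hab (by omega) (by omega) (by omega) (by omega) h1
    have h4 := hup b t α n (by omega) h1 _ hsub1
    calc P2 (RE A B t D) (CN a b c d A B t D) ≤ _ := h3
      _ ≤ C0 * ((α : ℝ) / n) ^ ((1 : ℝ) / 3) := h4
      _ ≤ C0 * (40 * (s * u)) ^ ((1 : ℝ) / 3) := by
        have h6 : ((α : ℝ) / n) ≤ 40 * (s * u) := by
          have := hu5 h2
          calc ((α : ℝ) / n) ≤ 8 * s := hαn h1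
            _ = 40 * (s * (1 / 5)) := by ring
            _ ≤ 40 * (s * u) := by gcongr
        have h7 := Real.rpow_le_rpow (by positivity) h6 (by norm_num : (0 : ℝ) ≤ (1 : ℝ) / 3)
        exact mul_le_mul_of_nonneg_left h7 (by positivity)
      _ ≤ C0 * (40 * X) := by
        have := F_cube_le (x := s * u) (K := 40) (by positivity) (by norm_num)
        exact mul_le_mul_of_nonneg_left this (by positivity)
      _ ≤ (25 + 40 * C0 + 64 * C0 ^ 2) * X := by
        have : 0 ≤ (25 + 64 * C0 ^ 2) * X := by positivity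
        linarith
  · have h3 := F_one_right (a := a) (b := b) (c := c) (d := d) (A := A) (B := B) (t := t) (D := D)
      hn1 hcd (by omega) (by omega) (by omega) (by omega) h2
    have h4 := hup c t γ n (by omega) h2 _ hsub2
    calc P2 (RE A B t D) (CN a b c d A B t D) ≤ _ := h3
      _ ≤ C0 * ((γ : ℝ) / n) ^ ((1 : ℝ) / 3) := h4
      _ ≤ C0 * (40 * (s * u)) ^ ((1 : ℝ) / 3) := by
        have h6 : ((γ : ℝ) / n) ≤ 40 * (s * u) := by
          have := hs5 h1
          calc ((γ : ℝ) / n) ≤ 8 * u := hγn h2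
            _ = 40 * ((1 / 5) * u) := by ring
            _ ≤ 40 * (s * u) := by gcongr
        have h7 := Real.rpow_le_rpow (by positivity) h6 (by norm_num : (0 : ℝ) ≤ (1 : ℝ) / 3)
        exact mul_le_mul_of_nonneg_left h7 (by positivity)
      _ ≤ C0 * (40 * X) := by
        have := F_cube_le (x := s * u) (K := 40) (by positivity) (by norm_num)
        exact mul_le_mul_of_nonneg_left this (by positivity)
      _ ≤ (25 + 40 * C0 + 64 * C0 ^ 2) * X := by
        have : 0 ≤ (25 + 64 * C0 ^ 2) * X := by positivity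
        linarith
  · exact htriv (hs5 h1) (hu5 h2)

end H731C
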