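import Pool.Agent.H731R3.Cardy.Compl
import Pool.Agent.H731R3.Cardy.LowerCN
import Pool.Agent.H731R3.Cardy.Upper
import Pool.Agent.H731R3.Cardy.CardyF
import Pool.Agent.H974R2.Infinite

/-!
From boxes to the half-plane.
-/

namespace H731C

open H974 MeasureTheory Filter Topology Finset

/-- The boundary sets `I × {0}` and `J × {0}` are joined by an open path of the closed upper
half-plane. -/
def Joined (I J : Set ℤ) : Set (sqLattice.edgeSet → Bool) :=
  {ω | ∃ x ∈ I, ∃ y ∈ J, ∃ p : (openGraph ω).Walk (x, 0) (y, 0), ∀ v ∈ p.support, 0 ≤ v.2}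

theorem RE_mono' {N M : ℤ} (h : N ≤ M) : RE (-N) N 0 N ⊆ RE (-M) M 0 M := by
  rintro ⟨x, y, _ | _⟩ he
  · rw [mem_RE_false] at he ⊢
    omega
  · rw [mem_RE_true] at he ⊢
    omega

theorem walk_reach {ω : sqLattice.edgeSet → Bool} {u v : ℤ × ℤ} (p : (openGraph ω).Walk u v) :
    (∀ w ∈ p.support, 0 ≤ w.2) →
      ∃ N : ℕ, inR (-N) N 0 N u ∧ Reach (opn ω ∩ ↑(RE (-(N : ℤ)) N 0 N)) u v := by
  induction p with
  | nil =>
    rename_i u
    intro h
    have hu : 0 ≤ u.2 := h u (by simp)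
    refine ⟨u.1.natAbs + u.2.natAbs, ?_, Relation.ReflTransGen.refl⟩
    unfold inR
    omega
  | cons h p ih =>
    rename_i u w z
    intro hs
    obtain ⟨N, hN, hr⟩ := ih (fun t ht => hs t (by simp [ht]))
    have hu : 0 ≤ u.2 := hs u (by simp)
    refine ⟨N + (u.1.natAbs + u.2.natAbs), ?_, ?_⟩
    · unfold inR
      omega
    · have hm : RE (-(N : ℤ)) N 0 N ⊆ RE (-((N + (u.1.natAbs + u.2.natAbs) : ℕ) : ℤ))
          ((N + (u.1.natAbs + u.2.natAbs) : ℕ) : ℤ) 0 ((N + (u.1.natAbs + u.2.natAbs) : ℕ) : ℤ) :=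
        RE_mono' (by omega)
      have h1 := (openGraph_adj ω u w).mp h
      obtain ⟨e, he, hc⟩ := h1
      have hiu : inR (-((N + (u.1.natAbs + u.2.natAbs) : ℕ) : ℤ))
          ((N + (u.1.natAbs + u.2.natAbs) : ℕ) : ℤ) 0
          ((N + (u.1.natAbs + u.2.natAbs) : ℕ) : ℤ) u := by
        unfold inR
        omega
      have hiw : inR (-((N + (u.1.natAbs + u.2.natAbs) : ℕ) : ℤ))
          ((N + (u.1.natAbs + u.2.natAbs) : ℕ) : ℤ) 0
          ((N + (u.1.natAbs + u.2.natAbs) : ℕ) : ℤ) w := by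
        unfold inR at hN ⊢
        omega
      have he2 : e ∈ RE (-((N + (u.1.natAbs + u.2.natAbs) : ℕ) : ℤ))
          ((N + (u.1.natAbs + u.2.natAbs) : ℕ) : ℤ) 0
          ((N + (u.1.natAbs + u.2.natAbs) : ℕ) : ℤ) := by
        rcases hc with ⟨h1, h2⟩ | ⟨h1, h2⟩
        · exact RE_of_ends (by rw [h1]; exact hiu) (by rw [h2]; exact hiw)
        · exact RE_of_ends (by rw [h1]; exact hiw) (by rw [h2]; exact hiu)
      refine Relation.ReflTransGen.head ⟨e, ⟨he, Finset.mem_coe.mpr he2⟩, hc⟩ ?_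
      exact hr.mono (Set.inter_subset_inter_right _ (by exact_mod_cast hm))

theorem reach_walk {ω : sqLattice.edgeSet → Bool} {A B D : ℤ} {u v : ℤ × ℤ} (hu : 0 ≤ u.2)
    (h : Reach (opn ω ∩ ↑(RE A B 0 D)) u v) :
    ∃ p : (openGraph ω).Walk u v, ∀ w ∈ p.support, 0 ≤ w.2 := by
  induction h with
  | refl => exact ⟨SimpleGraph.Walk.nil, by simpa using hu⟩
  | tail _ hs ih =>
    rename_i b c _
    obtain ⟨p, hp⟩ := ih
    have hc : 0 ≤ c.2 := by
      obtain ⟨e, ⟨-, he⟩, hc⟩ := hs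
      have := RE_ends (Finset.mem_coe.mp he)
      rcases hc with ⟨h1, h2⟩ | ⟨h1, h2⟩
      · rw [← h2]; exact this.2.2.1
      · rw [← h1]; exact this.1.2.1
    have hadj : (openGraph ω).Adj b c :=
      (openGraph_adj ω b c).mpr (Adj.mono Set.inter_subset_left hs)
    refine ⟨p.concat hadj, ?_⟩
    intro w hw
    rw [SimpleGraph.Walk.support_concat] at hw
    have hw' : w ∈ p.support ∨ w = c := by simpa using hw
    rcases hw' with h | h
    · exact hp w h
    · rw [h]; exact hc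

/-- the finite-volume events -/
def EvN (a b c d : ℤ) (N : ℕ) : Set (sqLattice.edgeSet → Bool) :=
  {ω | CN a b c d (-N) N 0 N (FF (RE (-(N : ℤ)) N 0 N) ω)}

theorem evN_iff {a b c d : ℤ} {N : ℕ} {ω : sqLattice.edgeSet → Bool} :
    ω ∈ EvN a b c d N ↔ ∃ x y, (a ≤ x ∧ x ≤ b) ∧ (c ≤ y ∧ y ≤ d) ∧
      Reach (opn ω ∩ ↑(RE (-(N : ℤ)) N 0 N)) (x, 0) (y, 0) := by
  show CN a b c d (-N) N 0 N (FF (RE (-(N : ℤ)) N 0 N) ω) ↔ _
  unfold CN
  rw [FF_coe, Set.inter_assoc, Set.inter_self]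

theorem evN_mono (a b c d : ℤ) : Monotone (EvN a b c d) := by
  intro N M hNM ω h
  rw [evN_iff] at h ⊢
  obtain ⟨x, y, h1, h2, h3⟩ := h
  refine ⟨x, y, h1, h2, h3.mono (Set.inter_subset_inter_right _ ?_)⟩
  exact_mod_cast RE_mono' (by exact_mod_cast hNM)

theorem joined_eq (a b c d : ℤ) :
    Joined (Set.Icc a b) (Set.Icc c d) = ⋃ N : ℕ, EvN a b c d N := by
  ext ω
  rw [Set.mem_iUnion]
  constructor
  · rintro ⟨x, hx, y, hy, p, hp⟩
    obtain ⟨N, -, hr⟩ := walk_reach p hp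
    exact ⟨N, evN_iff.mpr ⟨x, y, hx, hy, hr⟩⟩
  · rintro ⟨N, hN⟩
    obtain ⟨x, y, h1, h2, h3⟩ := evN_iff.mp hN
    obtain ⟨p, hp⟩ := reach_walk (by simp) h3
    exact ⟨x, h1, y, h2, p, hp⟩

/-- The parameter `1/2`. -/
noncomputable def half : unitInterval := ⟨1/2, by norm_num, by norm_num⟩

/-- The probability at the critical point `p = 1/2` that the boundary sets `I × {0}` and
`J × {0}` are joined by an open path of the closed upper half-plane. -/
noncomputable def crossProb (I J : Set ℤ) : ℝ := (bondLaw half).real (Joined I J)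

theorem real_evN (a b c d : ℤ) (N : ℕ) :
    (bondLaw half).real (EvN a b c d N) =
      P2 (RE (-(N : ℤ)) N 0 N) (CN a b c d (-N) N 0 N) :=
  law_event half (RE (-(N : ℤ)) N 0 N) (CN a b c d (-N) N 0 N)

theorem crossProb_tendsto (a b c d : ℤ) :
    Tendsto (fun N : ℕ => P2 (RE (-(N : ℤ)) N 0 N) (CN a b c d (-N) N 0 N)) atTop
      (𝓝 (crossProb (Set.Icc a b) (Set.Icc c d))) := by
  have h := tendsto_measure_iUnion_atTop (μ := bondLaw half) (evN_mono a b c d)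
  rw [← joined_eq] at h
  have h2 := (ENNReal.tendsto_toReal (measure_ne_top (bondLaw half)
    (Joined (Set.Icc a b) (Set.Icc c d)))).comp h
  refine h2.congr (fun N => ?_)
  exact real_evN a b c d N

/-- half-infinite intervals -/
theorem joined_Iic (b c d : ℤ) :
    Joined (Set.Iic b) (Set.Icc c d) = ⋃ M : ℕ, Joined (Set.Icc (-(M : ℤ)) b) (Set.Icc c d) := by
  ext ω
  rw [Set.mem_iUnion]
  constructor
  · rintro ⟨x, hx, y, hy, p, hp⟩
    refine ⟨x.natAbs, x, ⟨?_, hx⟩, y, hy, p, hp⟩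
    omega
  · rintro ⟨M, x, hx, y, hy, p, hp⟩
    exact ⟨x, hx.2, y, hy, p, hp⟩

theorem crossProb_Iic_tendsto (b c d : ℤ) :
    Tendsto (fun M : ℕ => crossProb (Set.Icc (-(M : ℤ)) b) (Set.Icc c d)) atTop
      (𝓝 (crossProb (Set.Iic b) (Set.Icc c d))) := by
  have hm : Monotone (fun M : ℕ => Joined (Set.Icc (-(M : ℤ)) b) (Set.Icc c d)) := by
    rintro M M' hMM ω ⟨x, hx, y, hy, p, hp⟩
    have : (M : ℤ) ≤ M' := by exact_mod_cast hMM
    exact ⟨x, ⟨by linarith [hx.1], hx.2⟩, y, hy, p, hp⟩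
  have h := tendsto_measure_iUnion_atTop (μ := bondLaw half) hm
  rw [← joined_Iic] at h
  exact (ENNReal.tendsto_toReal (measure_ne_top (bondLaw half)
    (Joined (Set.Iic b) (Set.Icc c d)))).comp h

end H731C
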