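import Pool.Agent.H731R3.Cardy.Defs

/-!
# Stubs (tasks).  Prove each theorem in the file named in the task, in namespace `H731C`
(NOT `H731C.Stub`), same names and statements.
-/

namespace H731C.Stub

open H974 Finset H731C

/-! ## Task A, file Arm.lean -/
section A

theorem AR_bounds : ∃ c C : ℝ, 0 < c ∧ 0 < C ∧ ∀ z t n : ℤ, 1 ≤ n → ∀ S : Finset Edg,
    RE (z - n) (z + n) t (t + n) ⊆ S →
    c * ((1 : ℝ) / n) ^ ((1 : ℝ) / 3) ≤ P2 S (AR z t n) ∧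
      P2 S (AR z t n) ≤ C * ((1 : ℝ) / n) ^ ((1 : ℝ) / 3) := sorry

end A

/-! ## Task B, file Circ.lean -/
section B

theorem HC_incr (S : Finset Edg) (z t r : ℤ) : IncrE S (HC z t r) := sorry

theorem pr_HC {z t r : ℤ} (hr : 1 ≤ r) {S : Finset Edg}
    (hS : VE (z - 3 * r) (z + 3 * r) t (t + 3 * r) ⊆ S) :
    (1/2 : ℝ) ^ 141 ≤ P2 S (HC z t r) := sorry

theorem HC_meet {z t r : ℤ} (hr : 1 ≤ r) {F : Finset Edg} (h : HC z t r F) :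
    ∃ fl fr : ℤ, (z - 3 * r ≤ fl ∧ fl ≤ z - r) ∧ (z + r ≤ fr ∧ fr ≤ z + 3 * r) ∧
      ∀ u v : Vtx, inR (z - r) (z + r) t (t + r) u → onH z t (3 * r) v →
        Reach (↑F ∩ ↑(RE (z - 3 * r) (z + 3 * r) t (t + 3 * r))) u v →
        Reach (↑F ∩ ↑(RE (z - 3 * r) (z + 3 * r) t (t + 3 * r))) u (fl, t) ∧
        Reach (↑F ∩ ↑(RE (z - 3 * r) (z + 3 * r) t (t + 3 * r))) u (fr, t) := sorry

/-- the same inside the rectangle without the horizontal edges of the bottom row -/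
theorem HC_meetV {z t r : ℤ} (hr : 1 ≤ r) {F : Finset Edg} (h : HC z t r F) :
    ∃ fl fr : ℤ, (z - 3 * r ≤ fl ∧ fl ≤ z - r) ∧ (z + r ≤ fr ∧ fr ≤ z + 3 * r) ∧
      ∀ u v : Vtx, inR (z - r) (z + r) t (t + r) u → onH z t (3 * r) v →
        Reach (↑F ∩ ↑(VE (z - 3 * r) (z + 3 * r) t (t + 3 * r))) u v →
        Reach (↑F ∩ ↑(VE (z - 3 * r) (z + 3 * r) t (t + 3 * r))) u (fl, t) ∧
        Reach (↑F ∩ ↑(VE (z - 3 * r) (z + 3 * r) t (t + 3 * r))) u (fr, t) := sorry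

end B

/-! ## Task C, file HalfBox.lean (from A, B) -/
section C

theorem HA_upper : ∃ C : ℝ, 0 < C ∧ ∀ z t m n : ℤ, 1 ≤ m → m ≤ n → ∀ S : Finset Edg,
    RE (z - n) (z + n) t (t + n) ⊆ S →
    P2 S (HA z t m n) ≤ C * ((m : ℝ) / n) ^ ((1 : ℝ) / 3) := sorry

theorem HA_lower : ∃ c : ℝ, 0 < c ∧ ∀ z t m n : ℤ, 0 ≤ m → m ≤ n → 1 ≤ n → ∀ S : Finset Edg,
    RE (z - n) (z + n) t (t + n) ⊆ S →
    c * (((m : ℝ) + 1) / n) ^ ((1 : ℝ) / 3) ≤ P2 S (HA z t m n) := sorry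

theorem HAV_lower : ∃ c : ℝ, 0 < c ∧ ∀ z t m n : ℤ, 1 ≤ m → m ≤ n → ∀ S : Finset Edg,
    VE (z - n) (z + n) t (t + n) ⊆ S →
    c * ((m : ℝ) / n) ^ ((1 : ℝ) / 3) ≤ P2 S (HAV z t m n) := sorry

end C

/-! ## Task D, file Interval.lean (from A, B, C) -/
section D

theorem IA_lower : ∃ c : ℝ, 0 < c ∧ ∀ a b t n : ℤ, a ≤ b → b - a + 1 ≤ n →
    ∃ z : ℤ, (a ≤ z ∧ z ≤ b) ∧ ∀ S : Finset Edg, VE (z - n) (z + n) t (t + n) ⊆ S →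
      c * (((b - a + 1 : ℤ) : ℝ) / n) ^ ((1 : ℝ) / 3) ≤ P2 S (IA a b z t n) := sorry

end D

/-! ## Task E, file Cross.lean (from B, D) -/
section E

theorem XC_lower : ∃ c : ℝ, 0 < c ∧ ∀ a b c' d t A B D : ℤ, a ≤ b → b < c' → c' ≤ d →
    A ≤ a - 10 * (d - a + 1) → a + 10 * (d - a + 1) ≤ B → t + 10 * (d - a + 1) ≤ D →
    ∀ S : Finset Edg, VE A B t D ⊆ S →
    c * ((((b - a + 1 : ℤ) : ℝ) * ((d - c' + 1 : ℤ) : ℝ)) / ((d - a + 1 : ℤ) : ℝ) ^ 2)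
        ^ ((1 : ℝ) / 3) ≤ P2 S (XC a b c' d A B t D) := sorry

end E

/-! ## Task F, file Upper.lean (from C) -/
section F

/-- independence of the two arms -/
theorem CN_upper_mul {a b c d A B t D n : ℤ} (hn : 1 ≤ n) (hab : a ≤ b) (hcd : c ≤ d)
    (h2n : 2 * n < c - b) (hA : A ≤ b - n) (hB : c + n ≤ B) (hD : t + n ≤ D)
    (hα : b - a + 1 ≤ n) (hγ : d - c + 1 ≤ n) :
    P2 (RE A B t D) (CN a b c d A B t D) ≤
      P2 (RE A B t D) (HA b t (b - a + 1) n) * P2 (RE A B t D) (HA c t (d - c + 1) n) := sorry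

theorem CN_upper : ∃ C : ℝ, 0 < C ∧ ∀ a b c d A B t D : ℤ, a ≤ b → b < c → c ≤ d →
    A ≤ a - (c - b) → d + (c - b) ≤ B → t + (c - b) ≤ D →
    P2 (RE A B t D) (CN a b c d A B t D) ≤
      C * ((((b - a + 1 : ℤ) : ℝ) / ((b - a + 1 + (c - b) : ℤ) : ℝ)) *
        (((d - c + 1 : ℤ) : ℝ) / ((c - b + (d - c + 1) : ℤ) : ℝ))) ^ ((1 : ℝ) / 3) := sorry

end F

/-! ## Task G, file NoHalf.lean: a closed dual path between bottom faces blocks open paths -/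
section G

theorem no_half {A B D p q u v : ℤ} {F : Set Edg} (hu : p < u ∧ u ≤ q) (hv : v ≤ p ∨ q < v)
    (h1 : DReach (Fᶜ ∩ ↑(RE A B 0 D)) (p, -1) (q, -1))
    (h2 : Reach (F ∩ ↑(RE A B 0 D)) (u, 0) (v, 0)) : False := sorry

end G

/-! ## Task H, file DualArm.lean: no open path between the two intervals gives a dual arm -/
section H

theorem dual_arm {a b c d A B D n : ℤ} {F : Finset Edg} (hab : a ≤ b) (hbc : b < c)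
    (hcd : c ≤ d) (hn : c - b ≤ n) (h1 : a ≤ b - n - 2) (h2 : b + n + 2 ≤ d)
    (hA : A ≤ a) (hB : d ≤ B) (hD : n + 2 ≤ D) (hno : ¬ CN a b c d A B 0 D F) :
    HA b (-1) (c - b) n (dmp (RE A B 0 D \ F)) := sorry

end H

/-! ## Task I, file Compl.lean (from C, E, G, H): bounds for the complement -/
section I

theorem CN_compl_lower_left : ∃ c : ℝ, 0 < c ∧ ∀ a b c' d : ℤ, a ≤ b → b < c' → c' ≤ d →
    ∃ N0 : ℤ, ∀ N : ℤ, N0 ≤ N →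
      c * (((c' - b : ℤ) : ℝ) / ((b - a + 1 + (c' - b) : ℤ) : ℝ)) ^ ((1 : ℝ) / 3) ≤
        P2 (RE (-N) N 0 N) (fun F => ¬ CN a b c' d (-N) N 0 N F) := sorry

theorem CN_compl_lower_right : ∃ c : ℝ, 0 < c ∧ ∀ a b c' d : ℤ, a ≤ b → b < c' → c' ≤ d →
    ∃ N0 : ℤ, ∀ N : ℤ, N0 ≤ N →
      c * (((c' - b : ℤ) : ℝ) / ((c' - b + (d - c' + 1) : ℤ) : ℝ)) ^ ((1 : ℝ) / 3) ≤
        P2 (RE (-N) N 0 N) (fun F => ¬ CN a b c' d (-N) N 0 N F) := sorry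

theorem CN_compl_upper : ∃ C : ℝ, 0 < C ∧ ∀ a b c d : ℤ, a ≤ b → b < c → c ≤ d →
    ∃ N0 : ℤ, ∀ N : ℤ, N0 ≤ N →
      P2 (RE (-N) N 0 N) (fun F => ¬ CN a b c d (-N) N 0 N F) ≤
        C * (max (((c - b : ℤ) : ℝ) / ((b - a + 1 + (c - b) : ℤ) : ℝ))
          (((c - b : ℤ) : ℝ) / ((c - b + (d - c + 1) : ℤ) : ℝ))) ^ ((1 : ℝ) / 3) := sorry

end I

/-! ## Task J, file LowerCN.lean (from E) -/
section J

theorem CN_lower : ∃ c : ℝ, 0 < c ∧ ∀ a b c' d : ℤ, a ≤ b → b < c' → c' ≤ d →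
    ∃ N0 : ℤ, ∀ N : ℤ, N0 ≤ N →
      c * ((((b - a + 1 : ℤ) : ℝ) / ((b - a + 1 + (c' - b) : ℤ) : ℝ)) *
        (((d - c' + 1 : ℤ) : ℝ) / ((c' - b + (d - c' + 1) : ℤ) : ℝ))) ^ ((1 : ℝ) / 3) ≤
      P2 (RE (-N) N 0 N) (CN a b c' d (-N) N 0 N) := sorry

end J

/-! ## Task K, file CardyF.lean: Cardy's function -/
section K

/-- Cardy's function in its incomplete Beta form. -/
noncomputable def cardyF (x : ℝ) : ℝ :=
  (∫ u in (0 : ℝ)..x, u ^ (-(2/3) : ℝ) * (1 - u) ^ (-(2/3) : ℝ)) /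
    ∫ u in (0 : ℝ)..1, u ^ (-(2/3) : ℝ) * (1 - u) ^ (-(2/3) : ℝ)

theorem cardyF_bounds : ∃ c C : ℝ, 0 < c ∧ 0 < C ∧ ∀ x : ℝ, 0 < x → x < 1 →
    c * x ^ ((1 : ℝ) / 3) ≤ cardyF x ∧ cardyF x ≤ C * x ^ ((1 : ℝ) / 3) ∧
    c * (1 - x) ^ ((1 : ℝ) / 3) ≤ 1 - cardyF x ∧ 1 - cardyF x ≤ C * (1 - x) ^ ((1 : ℝ) / 3) :=
  sorry

end K

end H731C.Stub
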